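import Mathlib
import Pool.Agent.U839.Sv.Fin

set_option autoImplicit false

/-! # Consecutive elements -/

open Filter Finset Topology

namespace Pool.Agent.U839.Ch

/-- the `i`-th element -/
noncomputable def qn (Q : Set ℕ) (i : ℕ) : ℕ := Nat.nth (· ∈ Q) i

theorem qn_mono (Q : Set ℕ) (hQ : Q.Infinite) : StrictMono (qn Q) := by
  have hQ' : (Set.ofPred (· ∈ Q)).Infinite := hQ
  exact Nat.nth_strictMono hQ'

theorem qn_mem (Q : Set ℕ) (hQ : Q.Infinite) (i : ℕ) : qn Q i ∈ Q := by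
  have hQ' : (Set.ofPred (· ∈ Q)).Infinite := hQ
  exact Nat.nth_mem_of_infinite hQ' _

theorem qn_next (Q : Set ℕ) (hQ : Q.Infinite) (i m : ℕ) (hm : m ∈ Q) (h : qn Q i < m) : qn Q (i + 1) ≤ m := by
  classical
  have hQ' : (Set.ofPred (· ∈ Q)).Infinite := hQ
  have h3 : i < Nat.count (· ∈ Q) m := (Nat.lt_nth_iff_count_lt hQ').2 h
  have h4 : qn Q (Nat.count (· ∈ Q) m) = m := Nat.nth_count (p := (· ∈ Q)) hm
  rw [← h4]
  exact (qn_mono Q hQ).monotone h3

/-- consecutive elements of `Q` -/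
theorem cons (Q : Set ℕ) (hQ : Q.Infinite) (k : ℕ) (q : ℕ → ℕ) (a b : ℕ) (hq : ∀ i < k, q i < q (i + 1))
    (ha : a < q 0) (hb : q k ≤ b) (h : ∀ m, a < m → m ≤ b → (m ∈ Q ↔ ∃ i ≤ k, m = q i)) :
    ∃ i, ∀ j ≤ k, qn Q (i + j) = q j := by
  classical
  have hmon : ∀ d i : ℕ, i + d ≤ k → q i ≤ q (i + d) := by
    intro d
    induction d with
    | zero => intro i _; exact le_rfl
    | succ d ih =>
      intro i hi
      have h1 := ih i (by omega)
      have h2 := hq (i + d) (by omega)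
      exact h1.trans h2.le
  have hmon' : ∀ i j : ℕ, i ≤ j → j ≤ k → q i ≤ q j := by
    intro i j hij hj
    have := hmon (j - i) i (by omega)
    rwa [show i + (j - i) = j by omega] at this
  have hin : ∀ j ≤ k, a < q j ∧ q j ≤ b := fun j hj =>
    ⟨ha.trans_le (hmon' 0 j (by omega) hj), (hmon' j k hj le_rfl).trans hb⟩
  have hmem : ∀ j ≤ k, q j ∈ Q := fun j hj => (h (q j) (hin j hj).1 (hin j hj).2).2 ⟨j, hj, rfl⟩
  refine ⟨Nat.count (· ∈ Q) (q 0), ?_⟩
  intro j
  induction j with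
  | zero =>
    intro _
    exact Nat.nth_count (p := (· ∈ Q)) (hmem 0 (by omega))
  | succ j ih =>
    intro hj
    have h1 := ih (by omega)
    have h2 : qn Q (Nat.count (· ∈ Q) (q 0) + j + 1) ≤ q (j + 1) :=
      qn_next Q hQ _ _ (hmem (j + 1) hj) (by rw [h1]; exact hq j (by omega))
    have h3 : q j < qn Q (Nat.count (· ∈ Q) (q 0) + j + 1) := by
      rw [← h1]
      exact qn_mono Q hQ (Nat.lt_succ_self _)
    have h4 := qn_mem Q hQ (Nat.count (· ∈ Q) (q 0) + j + 1)
    obtain ⟨l, hl, hl2⟩ := (h _ ((hin j (by omega)).1.trans h3) (h2.trans (hin (j + 1) hj).2)).1 h4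
    have h5 : j < l := by
      by_contra hcon
      have := hmon' l j (by omega) (by omega)
      omega
    have h6 := hmon' (j + 1) l h5 hl
    rw [← add_assoc]
    omega

open Classical in
/-- many elements after `q_i` -/
theorem after (Q : Set ℕ) (hQ : Q.Infinite) (i w k : ℕ)
    (h : k ≤ ((Ioc (qn Q i) (qn Q i + w)).filter (fun m => m ∈ Q)).card) : qn Q (i + k) ≤ qn Q i + w := by
  have hQ' : (Set.ofPred (· ∈ Q)).Infinite := hQ
  have h1 : Nat.count (· ∈ Q) (qn Q i) = i := Nat.count_nth_of_infinite hQ' i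
  have h2 : i + k < Nat.count (· ∈ Q) (qn Q i + w + 1) := by
    have h3 : Nat.count (· ∈ Q) (qn Q i + 1) = i + 1 := by
      rw [Nat.count_succ, h1, if_pos (qn_mem Q hQ i)]
    rw [Nat.count_eq_card_filter_range] at h3 ⊢
    have h4 : (range (qn Q i + 1)).filter (· ∈ Q) ∪ (Ioc (qn Q i) (qn Q i + w)).filter (fun m => m ∈ Q) ⊆
        (range (qn Q i + w + 1)).filter (· ∈ Q) := by
      intro m hm
      simp only [mem_union, mem_filter, mem_range, mem_Ioc] at hm ⊢
      rcases hm with ⟨hm1, hm2⟩ | ⟨hm1, hm2⟩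
      · exact ⟨by omega, hm2⟩
      · exact ⟨by omega, hm2⟩
    have h5 := card_le_card h4
    rw [card_union_of_disjoint] at h5
    · omega
    · rw [Finset.disjoint_left]
      intro m hm1 hm2
      simp only [mem_filter, mem_range, mem_Ioc] at hm1 hm2
      omega
  have h6 : Nat.nth (· ∈ Q) (i + k) < qn Q i + w + 1 := Nat.nth_lt_of_lt_count h2
  unfold qn at h6 ⊢
  omega

end Pool.Agent.U839.Ch
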