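import Mathlib
import Pool.Agent.U839.Sv.Fin
import Pool.Agent.U839.Gb.Chern
import Pool.Agent.U839.Lp.Rand

set_option autoImplicit false

/-! # Windows with elements at given places -/

open MeasureTheory ProbabilityTheory Filter Finset Topology

namespace Pool.Agent.U839.Ch

open Pool.Agent.U839.Sv (wn log_sq_small)
open Pool.Agent.U839.Thin (residue one_sub_ge tlog)
open Pool.Agent.U839.Gb (SS SS_mgf SS_int SS_eq SS_meas group chern_low)
open Pool.Agent.U839.Lp (bc flip_indep split_prod)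

variable {Ω : Type*} [MeasurableSpace Ω] {μ : Measure Ω} [IsProbabilityMeasure μ]

/-- few elements in a window -/
theorem few {E : ℕ → Set Ω} (hm : ∀ n, MeasurableSet (E n)) (hE : iIndepSet E μ) (s : Finset ℕ) (k : ℕ)
    (δ S : ℝ) (hδ0 : 0 < δ) (hδ1 : δ ≤ 1) (hS : S ≤ ∑ m ∈ s, μ.real (E m)) :
    μ.real {ω | SS E s ω ≤ k} ≤ (1 / δ) ^ k * Real.exp (-((1 - δ) * S)) := by
  obtain ⟨τ, hτ⟩ : ∃ τ : ℝ, τ = - Real.log δ := ⟨_, rfl⟩
  have hτ0 : 0 ≤ τ := by
    rw [hτ]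
    have := Real.log_nonpos hδ0.le hδ1
    linarith
  refine (measure_le_le_exp_mul_mgf (t := -τ) _ (by linarith) (SS_int E hm _ _)).trans ?_
  refine (mul_le_mul_of_nonneg_left (SS_mgf E hm hE _ _) (Real.exp_pos _).le).trans ?_
  have h2 : Real.exp (-τ) = δ := by rw [hτ, neg_neg, Real.exp_log hδ0]
  have h3 : Real.exp (- -τ * (k : ℝ)) = (1 / δ) ^ k := by
    rw [neg_neg, mul_comm, Real.exp_nat_mul, one_div]
    congr 1
    rw [hτ, Real.exp_neg, Real.exp_log hδ0]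
  rw [h2, h3]
  apply mul_le_mul_of_nonneg_left _ (by positivity)
  apply Real.exp_le_exp.2
  nlinarith

open Classical in
/-- many elements in all windows -/
theorem many {E : ℕ → Set Ω} (hm : ∀ n, MeasurableSet (E n)) (hE : iIndepSet E μ) (ρ : ℕ → ℝ)
    (hρ : ∀ᶠ n : ℕ in atTop, μ.real (E n) = ρ n) (w : ℕ → ℕ) (lam : ℝ) (hlam : 1 < lam)
    (h : ∀ᶠ n : ℕ in atTop, lam * Real.log n ≤ ∑ m ∈ Ioc n (n + w n), ρ m) (k : ℕ) :
    ∀ᵐ ω ∂μ, ∀ᶠ n : ℕ in atTop, k < ((Ioc n (n + w n)).filter (fun m => ω ∈ E m)).card := by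
  obtain ⟨δ, hδ⟩ : ∃ δ : ℝ, δ = (lam - 1) / (2 * lam) := ⟨_, rfl⟩
  have hδ0 : 0 < δ := by
    rw [hδ]
    apply div_pos <;> linarith
  have hlam' : lam * (1 - δ) = (lam + 1) / 2 := by
    have : lam ≠ 0 := by linarith
    rw [hδ]
    field_simp
    ring
  have hδ1 : δ ≤ 1 := by
    rw [hδ, div_le_one (by linarith)]
    linarith
  have hb := bc (μ := μ) (fun n => {ω | SS E (Ioc n (n + w n)) ω ≤ k}) ((1 / δ) ^ k) ((lam + 1) / 2)
    (by linarith) ?_
  · filter_upwards [hb] with ω hω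
    filter_upwards [hω] with n hn
    rw [SS_eq, not_le] at hn
    exact_mod_cast hn
  · obtain ⟨n₁, hn₁⟩ := eventually_atTop.1 hρ
    filter_upwards [h, eventually_ge_atTop (max n₁ 1)] with n g1 g2
    have hn0 : (0 : ℝ) < n := by exact_mod_cast (le_max_right n₁ 1).trans g2
    have h1 : ∑ a ∈ Ioc n (n + w n), μ.real (E a) = ∑ a ∈ Ioc n (n + w n), ρ a := by
      apply Finset.sum_congr rfl
      intro a ha
      rw [mem_Ioc] at ha
      exact hn₁ a (by
        have := (le_max_left n₁ 1).trans g2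
        omega)
    refine (few hm hE _ k δ (lam * Real.log n) hδ0 hδ1 (by rw [h1]; exact g1)).trans ?_
    apply mul_le_mul_of_nonneg_left _ (by positivity)
    rw [one_div, ← Real.rpow_neg hn0.le, Real.rpow_def_of_pos hn0]
    apply Real.exp_le_exp.2
    rw [← hlam']
    linarith

theorem log_pow_small (k : ℕ) (η : ℝ) (hη : 0 < η) : ∀ᶠ x : ℕ in atTop, (2 * Real.log x) ^ k ≤ (x : ℝ) ^ η := by
  have hk : (0 : ℝ) < (k : ℝ) + 1 := by positivity
  have h1 := (isLittleO_log_rpow_atTop (r := η / (k + 1)) (by positivity)).bound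
    (show (0 : ℝ) < 1 / 2 by norm_num)
  filter_upwards [tendsto_natCast_atTop_atTop.eventually h1, eventually_ge_atTop 1] with x g1 g3
  have hx1 : (1 : ℝ) ≤ x := by exact_mod_cast g3
  have hx0 : (0 : ℝ) < x := by linarith
  rw [Real.norm_of_nonneg (Real.log_nonneg hx1), Real.norm_of_nonneg (by positivity)] at g1
  have g4 : (2 * Real.log x) ^ k ≤ ((x : ℝ) ^ (η / (k + 1))) ^ k := by
    apply pow_le_pow_left₀ (mul_nonneg (by norm_num) (Real.log_nonneg hx1))
    linarith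
  refine g4.trans ?_
  rw [← Real.rpow_natCast, ← Real.rpow_mul hx0.le]
  apply Real.rpow_le_rpow_of_exponent_le hx1
  rw [div_mul_eq_mul_div, div_le_iff₀ hk]
  nlinarith

theorem exp_small (η : ℝ) (hη : 0 < η) : ∀ᶠ x : ℕ in atTop,
    Real.exp (-((x : ℝ) ^ η / 16)) ≤ 1 * (1 / (x : ℝ) ^ (2 : ℝ)) := by
  have h1 := (isLittleO_log_rpow_atTop (r := η) hη).bound (show (0 : ℝ) < 1 / 32 by norm_num)
  filter_upwards [tendsto_natCast_atTop_atTop.eventually h1, eventually_ge_atTop 1] with x g1 g3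
  have hx1 : (1 : ℝ) ≤ x := by exact_mod_cast g3
  have hx0 : (0 : ℝ) < x := by linarith
  rw [Real.norm_of_nonneg (Real.log_nonneg hx1), Real.norm_of_nonneg (by positivity)] at g1
  have h2 : (x : ℝ) ^ (-(2 : ℝ)) = Real.exp (-(2 * Real.log x)) := by
    rw [Real.rpow_def_of_pos hx0]
    congr 1
    ring
  rw [one_mul, one_div, ← Real.rpow_neg hx0.le, h2]
  apply Real.exp_le_exp.2
  linarith

/-- many disjoint windows whose elements are at given places -/
theorem pat {E : ℕ → Set Ω} (hm : ∀ n, MeasurableSet (E n)) (hE : iIndepSet E μ) (ρ : ℕ → ℝ)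
    (hρ : ∀ᶠ n : ℕ in atTop, μ.real (E n) = ρ n) (c lam η : ℝ) (hc : 0 < c)
    (hη : 0 < η) (hρs : ∀ᶠ n : ℕ in atTop, 0 ≤ ρ n ∧ 2 * ρ n ≤ η) (hη1 : η ≤ 1)
    (hl : (1 + η) * lam + 4 * η ≤ 1) (k : ℕ) (P : ℕ → ℕ → Finset ℕ → Prop)
    (h : ∀ᶠ x : ℕ in atTop, ∃ S : Finset ℕ, (∀ n ∈ S, x < n ∧ n ≤ 2 * x ∧
      ∑ m ∈ Ioc n (n + wn c x), ρ m ≤ lam * Real.log x ∧
      ∃ J ⊆ Ioc n (n + wn c x), J.card ≤ k ∧ (∀ m ∈ J, 1 / (2 * Real.log x) ≤ ρ m) ∧ P x n J) ∧
      (x : ℝ) ^ (1 - η) ≤ S.card) :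
    ∀ᵐ ω ∂μ, ∀ᶠ x : ℕ in atTop, ∃ S : Finset ℕ, 1 / 2 * (x : ℝ) ^ (1 - 3 * η - (1 + η) * lam) ≤ S.card ∧
      (∀ n ∈ S, ∀ n' ∈ S, n ≠ n' → Disjoint (Ioc n (n + wn c x)) (Ioc n' (n' + wn c x))) ∧
      ∀ n ∈ S, x < n ∧ n ≤ 2 * x ∧ ∃ J ⊆ Ioc n (n + wn c x), P x n J ∧
        ∀ m ∈ Ioc n (n + wn c x), (ω ∈ E m ↔ m ∈ J) := by
  classical
  obtain ⟨n₁, hn₁⟩ := eventually_atTop.1 (hρ.and hρs)
  have key : ∀ᶠ x : ℕ in atTop, ∃ bad : Set Ω, μ.real bad ≤ 1 * (1 / (x : ℝ) ^ (2 : ℝ)) ∧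
      ∀ ω, ω ∉ bad → ∃ S : Finset ℕ, 1 / 2 * (x : ℝ) ^ (1 - 3 * η - (1 + η) * lam) ≤ S.card ∧
      (∀ n ∈ S, ∀ n' ∈ S, n ≠ n' → Disjoint (Ioc n (n + wn c x)) (Ioc n' (n' + wn c x))) ∧
      ∀ n ∈ S, x < n ∧ n ≤ 2 * x ∧ ∃ J ⊆ Ioc n (n + wn c x), P x n J ∧
        ∀ m ∈ Ioc n (n + wn c x), (ω ∈ E m ↔ m ∈ J) := by
    filter_upwards [h, log_sq_small c η hc hη, eventually_ge_atTop (max n₁ 1), exp_small η hη,
      log_pow_small k η hη, tlog.eventually_ge_atTop 1] with x g1 g2 g3 g4 g5 g6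
    have hx1 : (1 : ℝ) ≤ x := by exact_mod_cast (le_max_right _ _).trans g3
    have hx0 : (0 : ℝ) < x := by linarith
    obtain ⟨S, hS1, hS2⟩ := g1
    obtain ⟨Y, hY⟩ : ∃ Y, Y = wn c x := ⟨_, rfl⟩
    rw [← hY] at hS1 ⊢
    have hJ : ∀ n, ∃ J : Finset ℕ, n ∈ S → J ⊆ Ioc n (n + Y) ∧ J.card ≤ k ∧
        (∀ m ∈ J, 1 / (2 * Real.log x) ≤ ρ m) ∧ P x n J := by
      intro n
      by_cases hn : n ∈ S
      · obtain ⟨-, -, -, J, hJ1, hJ2⟩ := hS1 n hn
        exact ⟨J, fun _ => ⟨hJ1, hJ2⟩⟩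
      · exact ⟨∅, fun h => absurd h hn⟩
    choose J hJ using hJ
    obtain ⟨r, hr⟩ := residue S (Y + 1) (Nat.succ_pos _)
    obtain ⟨S', hS'⟩ : ∃ S', S' = S.filter (fun n => n % (Y + 1) = r) := ⟨_, rfl⟩
    rw [← hS'] at hr
    have hsub : ∀ i ∈ S', i ∈ S := by
      intro i hi
      rw [hS', Finset.mem_filter] at hi
      exact hi.1
    have hdis : ∀ i ∈ S', ∀ j ∈ S', i ≠ j → Disjoint (Ioc i (i + Y)) (Ioc j (j + Y)) := by
      intro i hi j hj hij
      rw [hS', Finset.mem_filter] at hi hj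
      rw [Finset.disjoint_left]
      intro m hmi hmj
      rw [Finset.mem_Ioc] at hmi hmj
      have h5 : i ≡ j [MOD (Y + 1)] := by
        unfold Nat.ModEq
        rw [hi.2, hj.2]
      rcases Nat.lt_or_gt_of_ne hij with h6 | h6
      · have h7 := (Nat.modEq_iff_dvd' h6.le).1 h5
        have h8 := Nat.le_of_dvd (by omega) h7
        omega
      · have h7 := (Nat.modEq_iff_dvd' h6.le).1 h5.symm
        have h8 := Nat.le_of_dvd (by omega) h7
        omega
    obtain ⟨B, hB⟩ : ∃ B, B = S'.biUnion J := ⟨_, rfl⟩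
    have hBJ : ∀ i ∈ S', ∀ m ∈ Ioc i (i + Y), (m ∈ B ↔ m ∈ J i) := by
      intro i hi m hmi
      rw [hB, mem_biUnion]
      constructor
      · rintro ⟨j, hj, hmj⟩
        by_cases hij : i = j
        · rw [hij]
          exact hmj
        · exfalso
          exact Finset.disjoint_left.1 (hdis i hi j hj hij) hmi ((hJ j (hsub j hj)).1 hmj)
      · intro hmj
        exact ⟨i, hi, hmj⟩
    obtain ⟨F, hF⟩ : ∃ F : ℕ → Set Ω, F = fun p => if p ∈ B then E p else (E p)ᶜ := ⟨_, rfl⟩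
    have hFi : iIndepSet F μ := by
      rw [hF]
      exact flip_indep B hE
    have hFm : ∀ n, MeasurableSet (F n) := by
      intro n
      rw [hF]
      simp only
      split_ifs
      · exact hm n
      · exact (hm n).compl
    obtain ⟨U, hU⟩ : ∃ U : ℕ → Finset ℕ, U = fun i => if i ∈ S' then Ioc i (i + Y) else ∅ := ⟨_, rfl⟩
    have hUd : ∀ a b, a ≠ b → Disjoint (U a) (U b) := by
      intro a b hab
      rw [hU]
      simp only
      split_ifs with h1 h2
      · exact hdis a h1 b h2 hab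
      · exact disjoint_empty_right _
      · exact disjoint_empty_left _
      · exact disjoint_empty_left _
    obtain ⟨D, hD⟩ : ∃ D : ℕ → Set Ω, D = fun a => ⋂ m ∈ U a, F m := ⟨_, rfl⟩
    have hDi : iIndepSet D μ := by
      rw [hD]
      exact group hFm hFi U hUd
    have hDm : ∀ n, MeasurableSet (D n) := by
      intro n
      rw [hD]
      exact Finset.measurableSet_biInter _ (fun m _ => hFm m)
    have hprob : ∀ i ∈ S', (x : ℝ) ^ (-η - (1 + η) * lam) ≤ μ.real (D i) := by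
      intro i hi
      obtain ⟨k1, k2, k3, -⟩ := hS1 i (hsub i hi)
      obtain ⟨j1, j2, j3, -⟩ := hJ i (hsub i hi)
      have e1 : μ.real (D i) = ∏ m ∈ Ioc i (i + Y), μ.real (F m) := by
        rw [hD]
        simp only [measureReal_def]
        rw [hFi.meas_biInter, ENNReal.toReal_prod, hU]
        simp only
        rw [if_pos hi]
      have hn₁i : ∀ m ∈ Ioc i (i + Y), n₁ ≤ m := by
        intro m hmi
        rw [mem_Ioc] at hmi
        have : n₁ ≤ x := (le_max_left _ _).trans g3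
        omega
      have e2 : ∏ m ∈ Ioc i (i + Y), μ.real (F m) = ∏ m ∈ Ioc i (i + Y), (if m ∈ J i then ρ m else 1 - ρ m) := by
        apply prod_congr rfl
        intro m hmi
        obtain ⟨f1, -, -⟩ := hn₁ m (hn₁i m hmi)
        rw [hF]
        simp only
        by_cases hmB : m ∈ B
        · rw [if_pos hmB, if_pos ((hBJ i hi m hmi).1 hmB), f1]
        · rw [if_neg hmB, if_neg (fun h => hmB ((hBJ i hi m hmi).2 h)), probReal_compl_eq_one_sub (hm m), f1]
      rw [e1, e2, split_prod _ _ j1]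
      have e3 : (x : ℝ) ^ (-η) ≤ ∏ m ∈ J i, ρ m := by
        have hb0 : 0 < 1 / (2 * Real.log x) := by positivity
        have hb1 : 1 / (2 * Real.log x) ≤ 1 := by
          rw [div_le_one (by positivity)]
          linarith
        calc (x : ℝ) ^ (-η) = 1 / (x : ℝ) ^ η := by rw [Real.rpow_neg hx0.le, one_div]
          _ ≤ 1 / (2 * Real.log x) ^ k := one_div_le_one_div_of_le (by positivity) g5
          _ = (1 / (2 * Real.log x)) ^ k := by rw [one_div_pow]
          _ ≤ (1 / (2 * Real.log x)) ^ (J i).card := pow_le_pow_of_le_one hb0.le hb1 j2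
          _ = ∏ m ∈ J i, (1 / (2 * Real.log x)) := by rw [prod_const]
          _ ≤ ∏ m ∈ J i, ρ m := prod_le_prod (fun _ _ => hb0.le) j3
      have e4 : (x : ℝ) ^ (-((1 + η) * lam)) ≤ ∏ m ∈ Ioc i (i + Y) \ J i, (1 - ρ m) := by
        have hfac : ∀ m ∈ Ioc i (i + Y) \ J i, Real.exp (-((1 + η) * ρ m)) ≤ 1 - ρ m := by
          intro m hmm
          obtain ⟨-, f2, f3⟩ := hn₁ m (hn₁i m (mem_sdiff.1 hmm).1)
          refine le_trans ?_ (one_sub_ge (ρ m) f2 (by linarith))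
          apply Real.exp_le_exp.2
          rw [neg_le_neg_iff]
          nlinarith
        refine le_trans ?_ (Finset.prod_le_prod (fun m _ => (Real.exp_pos _).le) hfac)
        rw [← Real.exp_sum, Finset.sum_neg_distrib, ← Finset.mul_sum, Real.rpow_def_of_pos hx0]
        apply Real.exp_le_exp.2
        have h5 : ∑ m ∈ Ioc i (i + Y) \ J i, ρ m ≤ ∑ m ∈ Ioc i (i + Y), ρ m :=
          sum_le_sum_of_subset_of_nonneg sdiff_subset (fun m hmm _ => (hn₁ m (hn₁i m hmm)).2.1)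
        have h6 : (1 + η) * ∑ m ∈ Ioc i (i + Y) \ J i, ρ m ≤ (1 + η) * (lam * Real.log x) := by
          apply mul_le_mul_of_nonneg_left (h5.trans k3) (by linarith)
        linarith
      calc (x : ℝ) ^ (-η - (1 + η) * lam) = (x : ℝ) ^ (-η) * (x : ℝ) ^ (-((1 + η) * lam)) := by
            rw [← Real.rpow_add hx0]
            congr 1
        _ ≤ _ := mul_le_mul e3 e4 (Real.rpow_nonneg hx0.le _) ((Real.rpow_nonneg hx0.le _).trans e3)
    have hcard : (x : ℝ) ^ (1 - 2 * η) ≤ S'.card := by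
      have h1 : (S.card : ℝ) ≤ ((Y : ℝ) + 1) * S'.card := by exact_mod_cast hr
      have h2 : (Y : ℝ) + 1 ≤ (x : ℝ) ^ η := by
        refine le_trans ?_ g2
        rw [hY]
        have := Nat.floor_le (show 0 ≤ c * (Real.log x) ^ 2 by positivity)
        unfold wn
        linarith
      have h3 : (x : ℝ) ^ (1 - η) = (x : ℝ) ^ η * (x : ℝ) ^ (1 - 2 * η) := by
        rw [← Real.rpow_add hx0]
        congr 1
        ring
      have h4 : 0 < (x : ℝ) ^ η := Real.rpow_pos_of_pos hx0 _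
      have h5 : (x : ℝ) ^ η * (x : ℝ) ^ (1 - 2 * η) ≤ (x : ℝ) ^ η * S'.card := by
        rw [← h3]
        refine hS2.trans (h1.trans ?_)
        gcongr
      exact le_of_mul_le_mul_left h5 h4
    have hM : (x : ℝ) ^ (1 - 3 * η - (1 + η) * lam) ≤ ∑ a ∈ S', μ.real (D a) := by
      calc (x : ℝ) ^ (1 - 3 * η - (1 + η) * lam) = (x : ℝ) ^ (1 - 2 * η) * (x : ℝ) ^ (-η - (1 + η) * lam) := by
            rw [← Real.rpow_add hx0]
            congr 1
            ring
        _ ≤ S'.card * (x : ℝ) ^ (-η - (1 + η) * lam) := by gcongr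
        _ = ∑ a ∈ S', (x : ℝ) ^ (-η - (1 + η) * lam) := by rw [sum_const, nsmul_eq_mul]
        _ ≤ _ := sum_le_sum hprob
    refine ⟨{ω | SS D S' ω ≤ (1 - 1 / 2) * ∑ a ∈ S', μ.real (D a)}, ?_, ?_⟩
    · refine (chern_low D hDm hDi S' (1 / 2) (by norm_num) (by norm_num)).trans (le_trans ?_ g4)
      apply Real.exp_le_exp.2
      have h1 : (x : ℝ) ^ η ≤ (x : ℝ) ^ (1 - 3 * η - (1 + η) * lam) :=
        Real.rpow_le_rpow_of_exponent_le hx1 (by linarith)
      linarith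
    · intro ω hω
      rw [Set.mem_ofPred_eq, SS_eq, not_le] at hω
      refine ⟨S'.filter (fun a => ω ∈ D a), ?_, ?_, ?_⟩
      · have : 1 / 2 * (x : ℝ) ^ (1 - 3 * η - (1 + η) * lam) ≤ (1 - 1 / 2) * ∑ a ∈ S', μ.real (D a) := by
          linarith
        refine this.trans (le_of_eq_of_le rfl (hω.le.trans (le_of_eq ?_)))
        congr
      · intro n hn n' hn' hnn
        exact hdis n (mem_filter.1 hn).1 n' (mem_filter.1 hn').1 hnn
      · intro n hn
        obtain ⟨hn1, hn2⟩ := mem_filter.1 hn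
        obtain ⟨k1, k2, -, -⟩ := hS1 n (hsub n hn1)
        obtain ⟨j1, -, -, j4⟩ := hJ n (hsub n hn1)
        refine ⟨k1, k2, J n, j1, j4, ?_⟩
        intro m hmn
        rw [hD] at hn2
        simp only [Set.mem_iInter] at hn2
        have h3 := hn2 m (by rw [hU]; simp only; rw [if_pos hn1]; exact hmn)
        rw [hF] at h3
        simp only at h3
        rw [← hBJ n hn1 m hmn]
        by_cases hmB : m ∈ B
        · rw [if_pos hmB] at h3
          exact ⟨fun _ => hmB, fun _ => h3⟩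
        · rw [if_neg hmB] at h3
          exact ⟨fun h => absurd h h3, fun h => absurd h hmB⟩
  obtain ⟨x₀, hx₀⟩ := eventually_atTop.1 key
  choose! bad hbad using hx₀
  have hb := bc (μ := μ) bad 1 2 (by norm_num) (by
    filter_upwards [eventually_ge_atTop x₀] with x hx
    exact (hbad x hx).1)
  filter_upwards [hb] with ω hω
  filter_upwards [hω, eventually_ge_atTop x₀] with x h1 h2
  exact (hbad x h2).2 ω h1

end Pool.Agent.U839.Ch
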