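import Mathlib
import Pool.Agent.U839.Ch.Prob
import Pool.Agent.U839.Ch.Cons

set_option autoImplicit false

/-! # Many chains of gaps of prescribed sizes -/

open MeasureTheory ProbabilityTheory Filter Finset Topology

namespace Pool.Agent.U839.Ch

open Pool.Agent.U839.Sv (wn log_sq_small fT fT_nonneg W W_ge_one regular Sieved law' rho_small inf sub_pow)
open Pool.Agent.U839.Thin (tlog)

variable {Ω : Type*} [MeasurableSpace Ω] {μ : Measure Ω} [IsProbabilityMeasure μ]

/-- partial sums -/
noncomputable def Ys (y : ℕ → ℝ) (j : ℕ) : ℝ := ∑ i ∈ range j, y i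

theorem Ys_succ (y : ℕ → ℝ) (j : ℕ) : Ys y (j + 1) = Ys y j + y j := by
  unfold Ys
  rw [sum_range_succ]

theorem Ys_mono (y : ℕ → ℝ) (k : ℕ) (hy : ∀ j < k, 0 ≤ y j) (i j : ℕ) (hij : i ≤ j) (hj : j ≤ k) :
    Ys y i ≤ Ys y j := by
  unfold Ys
  apply sum_le_sum_of_subset_of_nonneg
  · intro a ha
    rw [mem_range] at ha ⊢
    omega
  · intro a ha _
    rw [mem_range] at ha
    exact hy a (by omega)

theorem Ys_nonneg (y : ℕ → ℝ) (k : ℕ) (hy : ∀ j < k, 0 ≤ y j) (j : ℕ) (hj : j ≤ k) : 0 ≤ Ys y j := by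
  have := Ys_mono y k hy 0 j (by omega) hj
  unfold Ys at this ⊢
  simpa using this

theorem wn_mono {a b : ℝ} (h : a ≤ b) (x : ℕ) : wn a x ≤ wn b x := by
  unfold wn
  apply Nat.floor_le_floor
  have : 0 ≤ (Real.log x) ^ 2 := sq_nonneg _
  gcongr

/-- the size of a gap -/
theorem ratio (n x A B : ℕ) (s y e L Lq : ℝ) (hs : 0 ≤ s) (he : 0 < e) (hy : e ≤ y) (hy1 : y ≤ 1)
    (hL : L = Real.log x) (hL1 : 10 / e ≤ L) (hq1 : L ≤ Lq) (hq2 : Lq ≤ L + 2)
    (hA1 : n + wn s x < A) (hA2 : A ≤ n + wn (s + e) x) (hB1 : n + wn (s + y) x < B)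
    (hB2 : B ≤ n + wn (s + y + e) x) : |((B : ℝ) - A) / Lq ^ 2 - y| ≤ 2 * e := by
  have he1 : e ≤ 1 := hy.trans hy1
  have hL10 : 10 ≤ L := by
    refine le_trans ?_ hL1
    rw [le_div_iff₀ he]
    nlinarith
  have hLe : 10 ≤ L * e := by
    rw [div_le_iff₀ he] at hL1
    exact hL1
  have a1 : (n : ℝ) + wn s x + 1 ≤ A := by exact_mod_cast hA1
  have a2 : (A : ℝ) ≤ n + wn (s + e) x := by exact_mod_cast hA2
  have a3 : (n : ℝ) + wn (s + y) x + 1 ≤ B := by exact_mod_cast hB1
  have a4 : (B : ℝ) ≤ n + wn (s + y + e) x := by exact_mod_cast hB2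
  have b1 : s * L ^ 2 - 1 ≤ wn s x := by
    rw [hL]
    exact (Nat.sub_one_lt_floor _).le
  have b2 : (wn (s + e) x : ℝ) ≤ (s + e) * L ^ 2 := by
    rw [hL]
    exact Nat.floor_le (by positivity)
  have b3 : (s + y) * L ^ 2 - 1 ≤ wn (s + y) x := by
    rw [hL]
    exact (Nat.sub_one_lt_floor _).le
  have b4 : (wn (s + y + e) x : ℝ) ≤ (s + y + e) * L ^ 2 := by
    rw [hL]
    exact Nat.floor_le (by nlinarith [sq_nonneg (Real.log x)])
  have c1 : (B : ℝ) - A ≤ (y + e) * L ^ 2 + 1 := by nlinarith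
  have c2 : (y - e) * L ^ 2 ≤ (B : ℝ) - A := by nlinarith
  have hLq : 0 < Lq ^ 2 := by
    have : 0 < Lq := by linarith
    positivity
  have d1 : L ^ 2 ≤ Lq ^ 2 := pow_le_pow_left₀ (by linarith) hq1 2
  have d2 : Lq ^ 2 ≤ (L + 2) ^ 2 := pow_le_pow_left₀ (by linarith) hq2 2
  rw [abs_le]
  constructor
  · have : y - 2 * e ≤ ((B : ℝ) - A) / Lq ^ 2 := by
      rw [le_div_iff₀ hLq]
      refine le_trans ?_ c2
      by_cases hc : y - 2 * e ≤ 0
      · have h1 : (y - 2 * e) * Lq ^ 2 ≤ 0 := mul_nonpos_of_nonpos_of_nonneg hc hLq.le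
        have h2 : 0 ≤ (y - e) * L ^ 2 := mul_nonneg (by linarith) (sq_nonneg _)
        linarith
      · push Not at hc
        have h1 : (y - 2 * e) * Lq ^ 2 ≤ (y - 2 * e) * (L + 2) ^ 2 := by gcongr
        have h2 : (y - 2 * e) * (4 * L + 4) ≤ 1 * (4 * L + 4) := by
          apply mul_le_mul_of_nonneg_right _ (by linarith)
          linarith
        nlinarith
    linarith
  · have : ((B : ℝ) - A) / Lq ^ 2 ≤ y + 2 * e := by
      rw [div_le_iff₀ hLq]
      nlinarith
    linarith

/-- candidates in short windows -/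
theorem cand (T : ℕ → ℕ) (hT : Monotone T)
    (hTl : ∀ θ : ℝ, 0 < θ → ∀ᶠ n : ℕ in atTop, (T n : ℝ) ≤ (Real.log n) ^ θ) (e : ℝ) (he : 0 < e) :
    ∀ᶠ x : ℕ in atTop, ∀ n : ℕ, x ≤ n → n ≤ 2 * x → ∃ m, n < m ∧ m ≤ n + wn e x ∧ 1 ≤ fT T m := by
  obtain ⟨θ, hθ, H⟩ := regular (1 / 2) (by norm_num)
  filter_upwards [H T hT (hTl θ hθ) e he, tlog.eventually_ge_atTop 1] with x g1 g2 n h1 h2
  have h3 := (abs_le.1 (g1 n h1 h2)).1
  have h4 : 0 < ∑ m ∈ Ioc n (n + wn e x), fT T m := by
    have : 0 < e * (Real.log x) ^ 2 := by positivity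
    linarith
  obtain ⟨m, hm1, hm2⟩ := Finset.exists_lt_of_sum_lt (s := Ioc n (n + wn e x)) (f := fun _ => (0 : ℝ))
    (g := fun m => fT T m) (by simpa using h4)
  rw [mem_Ioc] at hm1
  refine ⟨m, hm1.1, hm1.2, ?_⟩
  unfold fT at hm2 ⊢
  split_ifs at hm2 ⊢ with h5
  · exact W_ge_one _
  · exact absurd hm2 (lt_irrefl _)

/-- many chains -/
theorem low_vec (T : ℕ → ℕ) (hT : Monotone T)
    (hTl : ∀ θ : ℝ, 0 < θ → ∀ᶠ n : ℕ in atTop, (T n : ℝ) ≤ (Real.log n) ^ θ) {E : ℕ → Set Ω}
    (hE : Sieved μ E T) (k : ℕ) (y : ℕ → ℝ) (e : ℝ) (he : 0 < e) (hy : ∀ j < k, e ≤ y j)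
    (hy1 : Ys y k + e < 1) (η' : ℝ) (hη' : 0 < η') :
    ∀ᵐ ω ∂μ, ∀ᶠ x : ℕ in atTop, ∃ I : Finset ℕ, (x : ℝ) ^ (1 - Ys y k - e - η') ≤ I.card ∧
      ∀ i ∈ I, x < qn {n | ω ∈ E n} i ∧ qn {n | ω ∈ E n} i ≤ 3 * x ∧ ∀ j < k,
        |((qn {n | ω ∈ E n} (i + j + 1) : ℝ) - qn {n | ω ∈ E n} (i + j)) /
          (Real.log (qn {n | ω ∈ E n} i)) ^ 2 - y j| ≤ 2 * e := by
  classical
  have hTs := sub_pow T 1 (hTl 1 one_pos)
  have hy0 : ∀ j < k, 0 ≤ y j := fun j hj => he.le.trans (hy j hj)
  obtain ⟨c, hc⟩ : ∃ c, c = Ys y k + e := ⟨_, rfl⟩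
  have hYk : 0 ≤ Ys y k := Ys_nonneg y k hy0 k le_rfl
  have hc0 : 0 < c := by linarith
  have hc1 : c < 1 := by linarith
  obtain ⟨u, hu⟩ : ∃ u : ℝ, u = min η' (1 - c) / 16 := ⟨_, rfl⟩
  have hu0 : 0 < u := by
    rw [hu]
    have : 0 < min η' (1 - c) := lt_min hη' (by linarith)
    linarith
  have hu1 : 16 * u ≤ η' := by
    rw [hu]
    have := min_le_left η' (1 - c)
    linarith
  have hu2 : 16 * u ≤ 1 - c := by
    rw [hu]
    have := min_le_right η' (1 - c)
    linarith
  have hu3 : u ≤ 1 := by linarith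
  obtain ⟨θ, hθ, H⟩ := regular u hu0
  obtain ⟨lam, hlam⟩ : ∃ lam, lam = (1 + u) * c := ⟨_, rfl⟩
  have hlamc : (1 + u) * lam ≤ c + 3 * u := by
    have f1 : u ^ 2 ≤ u := by nlinarith
    have f2 : (2 * u + u ^ 2) * c ≤ (3 * u) * 1 := by
      apply mul_le_mul _ hc1.le hc0.le (by linarith)
      linarith
    rw [hlam]
    nlinarith
  have hpat := pat (μ := μ) hE.meas hE.indep (fun n => fT T n / Real.log n) (law' hE hTs) c lam u hc0 hu0
    (rho_small T hTs u hu0) hu3 (by linarith) (k + 1)
    (fun x n J => ∃ q : ℕ → ℕ, J = (range (k + 1)).image q ∧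
      ∀ j ≤ k, n + wn (Ys y j) x < q j ∧ q j ≤ n + wn (Ys y j + e) x) (by
      have e5 : ∀ᶠ x : ℕ in atTop, (4 : ℝ) ≤ (x : ℝ) ^ u :=
        ((tendsto_rpow_atTop hu0).comp tendsto_natCast_atTop_atTop).eventually_ge_atTop _
      filter_upwards [H T hT (hTl θ hθ) c hc0, cand T hT hTl e he, tlog.eventually_ge_atTop 2,
        log_sq_small (2 * c) 1 (by linarith) one_pos, e5, eventually_ge_atTop 4] with x g1 g2 g3 g4 g5 g6
      have hx0 : (0 : ℝ) < x := by exact_mod_cast (by omega : 0 < x)
      have hL : 0 < Real.log x := by linarith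
      have hw : 2 * wn c x + 1 ≤ x := by
        rw [Real.rpow_one] at g4
        have h1 : (wn c x : ℝ) ≤ c * (Real.log x) ^ 2 := Nat.floor_le (by positivity)
        have h2 : 2 * (wn c x : ℝ) + 1 ≤ x := by linarith
        exact_mod_cast h2
      refine ⟨Ioc x (x + x / 2), fun n hn => ?_, ?_⟩
      · rw [Finset.mem_Ioc] at hn
        have k3 := (abs_le.1 (g1 n (by omega) (by omega))).2
        refine ⟨hn.1, by omega, ?_, ?_⟩
        · calc ∑ m ∈ Ioc n (n + wn c x), fT T m / Real.log m ≤
              ∑ m ∈ Ioc n (n + wn c x), fT T m / Real.log x := by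
                apply Finset.sum_le_sum
                intro m hm
                rw [Finset.mem_Ioc] at hm
                apply div_le_div_of_nonneg_left (fT_nonneg T m) hL
                exact Real.log_le_log hx0 (by exact_mod_cast (by omega : x ≤ m))
            _ = (∑ m ∈ Ioc n (n + wn c x), fT T m) / Real.log x := by rw [Finset.sum_div]
            _ ≤ ((1 + u) * (c * (Real.log x) ^ 2)) / Real.log x := by
                apply div_le_div_of_nonneg_right _ hL.le
                linarith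
            _ = lam * Real.log x := by
                rw [hlam]
                field_simp
        · have hq : ∀ j, ∃ m, j ≤ k → n + wn (Ys y j) x < m ∧ m ≤ n + wn (Ys y j + e) x ∧ 1 ≤ fT T m := by
            intro j
            by_cases hj : j ≤ k
            · have h1 : wn (Ys y j) x ≤ wn c x := wn_mono (by
                have := Ys_mono y k hy0 j k hj le_rfl
                linarith) x
              obtain ⟨m, h2, h3, h4⟩ := g2 (n + wn (Ys y j) x) (by omega) (by omega)
              refine ⟨m, fun _ => ⟨h2, ?_, h4⟩⟩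
              have h5 : wn (Ys y j) x + wn e x ≤ wn (Ys y j + e) x := by
                unfold wn
                rw [add_mul]
                apply Nat.le_floor
                push_cast
                have f1 := Nat.floor_le (show 0 ≤ Ys y j * (Real.log x) ^ 2 from
                  mul_nonneg (Ys_nonneg y k hy0 j hj) (sq_nonneg _))
                have f2 := Nat.floor_le (show 0 ≤ e * (Real.log x) ^ 2 by positivity)
                linarith
              omega
            · exact ⟨0, fun h => absurd h hj⟩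
          choose q hq using hq
          refine ⟨(range (k + 1)).image q, ?_, (card_image_le).trans (by rw [card_range]), ?_, q, rfl,
            fun j hj => ⟨(hq j hj).1, (hq j hj).2.1⟩⟩
          · intro m hm
            rw [mem_image] at hm
            obtain ⟨j, hj, rfl⟩ := hm
            rw [mem_range] at hj
            obtain ⟨h1, h2, -⟩ := hq j (by omega)
            have h3 : wn (Ys y j + e) x ≤ wn c x := wn_mono (by
                have := Ys_mono y k hy0 j k (by omega) le_rfl
                linarith) x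
            rw [mem_Ioc]
            omega
          · intro m hm
            rw [mem_image] at hm
            obtain ⟨j, hj, rfl⟩ := hm
            rw [mem_range] at hj
            obtain ⟨h1, h2, h4⟩ := hq j (by omega)
            have h3 : wn (Ys y j + e) x ≤ wn c x := wn_mono (by
                have := Ys_mono y k hy0 j k (by omega) le_rfl
                linarith) x
            have h5 : Real.log (q j) ≤ 2 * Real.log x := by
              have h6 : Real.log (q j) ≤ Real.log ((x : ℝ) ^ 2) := by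
                apply Real.log_le_log (by exact_mod_cast (by omega : 0 < q j))
                have f1 : q j ≤ x * 4 := by omega
                have f2 : x * 4 ≤ x * x := Nat.mul_le_mul_left x g6
                have : q j ≤ x ^ 2 := by
                  rw [pow_two]
                  exact f1.trans f2
                exact_mod_cast this
              rw [Real.log_pow] at h6
              push_cast at h6
              exact h6
            have h6 : 0 < Real.log (q j) := Real.log_pos (by exact_mod_cast (by omega : 1 < q j))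
            calc 1 / (2 * Real.log x) ≤ 1 / Real.log (q j) := one_div_le_one_div_of_le h6 h5
              _ ≤ fT T (q j) / Real.log (q j) := by gcongr
      · rw [Nat.card_Ioc]
        have h1 : x + x / 2 - x = x / 2 := by omega
        rw [h1]
        have h2 : (x : ℝ) ≤ 4 * ((x / 2 : ℕ) : ℝ) := by exact_mod_cast (by omega : x ≤ 4 * (x / 2))
        have h3 : (x : ℝ) ^ (1 - u) * (x : ℝ) ^ u = x := by
          rw [← Real.rpow_add hx0]
          simp
        have h4 : 0 ≤ (x : ℝ) ^ (1 - u) := Real.rpow_nonneg hx0.le _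
        nlinarith)
  filter_upwards [hpat, inf hE hT hTs] with ω h1 h2
  obtain ⟨Q, hQd⟩ : ∃ Q, Q = {n | ω ∈ E n} := ⟨_, rfl⟩
  have hQ : Q.Infinite := by rw [hQd]; exact h2
  rw [← hQd]
  have e5 : ∀ᶠ x : ℕ in atTop, (2 : ℝ) ≤ (x : ℝ) ^ u :=
    ((tendsto_rpow_atTop hu0).comp tendsto_natCast_atTop_atTop).eventually_ge_atTop _
  filter_upwards [h1, tlog.eventually_ge_atTop (10 / e), e5,
    log_sq_small (2 * c) 1 (by linarith) one_pos, eventually_ge_atTop 4] with x g1 g2 g3 g4 g5
  have hx1 : (1 : ℝ) ≤ x := by exact_mod_cast (by omega : 1 ≤ x)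
  have hx0 : (0 : ℝ) < x := by linarith
  have hw : 2 * wn c x + 1 ≤ x := by
    rw [Real.rpow_one] at g4
    have h1 : (wn c x : ℝ) ≤ c * (Real.log x) ^ 2 := Nat.floor_le (by positivity)
    have h2 : 2 * (wn c x : ℝ) + 1 ≤ x := by linarith
    exact_mod_cast h2
  obtain ⟨S, hS1, hS2, hS3⟩ := g1
  have hi : ∀ n, ∃ i, n ∈ S → (n < qn Q i ∧ qn Q i ≤ n + wn c x) ∧ ∀ j < k,
      |((qn Q (i + j + 1) : ℝ) - qn Q (i + j)) / (Real.log (qn Q i)) ^ 2 - y j| ≤ 2 * e := by
    intro n
    by_cases hn : n ∈ S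
    · obtain ⟨k1, k2, J, hJ, ⟨q, hq1, hq2⟩, hJ2⟩ := hS3 n hn
      have hb : wn (Ys y k + e) x = wn c x := by rw [hc]
      have hstep : ∀ i < k, q i < q (i + 1) := by
        intro i hi
        have f1 := (hq2 i (by omega)).2
        have f2 := (hq2 (i + 1) (by omega)).1
        have f3 : wn (Ys y i + e) x ≤ wn (Ys y (i + 1)) x := wn_mono (by
          rw [Ys_succ]
          have := hy i hi
          linarith) x
        omega
      obtain ⟨i, hi⟩ := cons Q hQ k q n (n + wn c x) hstep (by
          have := (hq2 0 (by omega)).1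
          omega) (by
          rw [← hb]
          exact (hq2 k le_rfl).2) (by
          intro m hm1 hm2
          have := hJ2 m (by rw [mem_Ioc]; exact ⟨hm1, hm2⟩)
          rw [hQd]
          change ω ∈ E m ↔ _
          rw [this, hq1, mem_image]
          constructor
          · rintro ⟨j, hj, rfl⟩
            rw [mem_range] at hj
            exact ⟨j, by omega, rfl⟩
          · rintro ⟨j, hj, rfl⟩
            exact ⟨j, by rw [mem_range]; omega, rfl⟩)
      have hi0 : qn Q i = q 0 := by
        have := hi 0 (by omega)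
        rwa [add_zero] at this
      have hq01 := (hq2 0 (by omega)).1
      have hq02 := (hq2 0 (by omega)).2
      have hq03 : wn (Ys y 0 + e) x ≤ wn c x := wn_mono (by
                have := Ys_mono y k hy0 0 k (by omega) le_rfl
                linarith) x
      refine ⟨i, fun _ => ⟨⟨by omega, by omega⟩, ?_⟩⟩
      intro j hj
      have hj1 := hi (j + 1) (by omega)
      have hj0 := hi j (by omega)
      rw [← add_assoc] at hj1
      rw [hj1, hj0]
      have r1 := hq2 j (by omega)
      have r2 := hq2 (j + 1) (by omega)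
      rw [Ys_succ] at r2
      have hxq : (x : ℝ) ≤ qn Q i := by exact_mod_cast (by omega : x ≤ qn Q i)
      have hqx : (qn Q i : ℝ) ≤ 3 * x := by exact_mod_cast (by omega : qn Q i ≤ 3 * x)
      have hlq1 : Real.log x ≤ Real.log (qn Q i) := Real.log_le_log hx0 hxq
      have hlq2 : Real.log (qn Q i) ≤ Real.log x + 2 := by
        have h4 := Real.log_le_log (by linarith) hqx
        rw [Real.log_mul (by norm_num) hx0.ne'] at h4
        have h5 : Real.log 3 ≤ 2 := by
          have h4 : Real.log 3 ≤ Real.log 4 := Real.log_le_log (by norm_num) (by norm_num)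
          have h5 : Real.log 4 = 2 * Real.log 2 := by
            rw [← Real.log_rpow (by norm_num)]
            norm_num
          have := Real.log_two_lt_d9
          linarith
        linarith
      have hyj1 : y j ≤ 1 := by
        have f1 := Ys_mono y k hy0 (j + 1) k (by omega) le_rfl
        have f2 := Ys_nonneg y k hy0 j (by omega)
        rw [Ys_succ] at f1
        linarith
      exact ratio n x (q j) (q (j + 1)) (Ys y j) (y j) e (Real.log x) (Real.log (qn Q i))
        (Ys_nonneg y k hy0 j (by omega)) he (hy j hj) hyj1 rfl g2 hlq1 hlq2 r1.1 r1.2 r2.1 r2.2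
    · exact ⟨0, fun h => absurd h hn⟩
  choose i hi using hi
  refine ⟨S.image i, ?_, ?_⟩
  · rw [card_image_of_injOn]
    · refine le_trans ?_ hS1
      have h3 : (x : ℝ) ^ (1 - Ys y k - e - η') * (x : ℝ) ^ u ≤ (x : ℝ) ^ (1 - 3 * u - (1 + u) * lam) := by
        rw [← Real.rpow_add hx0]
        apply Real.rpow_le_rpow_of_exponent_le hx1
        linarith
      have h4 : 0 ≤ (x : ℝ) ^ (1 - Ys y k - e - η') := Real.rpow_nonneg hx0.le _
      nlinarith
    · intro n hn n' hn' hnn
      by_contra hcon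
      have h3 := hS2 n hn n' hn' hcon
      have h4 := (hi n hn).1
      have h5 := (hi n' hn').1
      rw [← hnn] at h5
      exact Finset.disjoint_left.1 h3 (mem_Ioc.2 h4) (mem_Ioc.2 h5)
  · intro a ha
    rw [mem_image] at ha
    obtain ⟨n, hn, rfl⟩ := ha
    obtain ⟨k1, k2, -⟩ := hS3 n hn
    obtain ⟨⟨h3, h4⟩, h5⟩ := hi n hn
    exact ⟨by omega, by omega, h5⟩

end Pool.Agent.U839.Ch
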