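import Mathlib
import Pool.Agent.U839.Ch.Low

set_option autoImplicit false

/-! # Few chains of large gaps -/

open MeasureTheory ProbabilityTheory Filter Finset Topology

namespace Pool.Agent.U839.Ch

open Pool.Agent.U839.Sv (wn log_sq_small fT fT_nonneg W W_ge_one regular Sieved law' rho_small inf sub_pow)
open Pool.Agent.U839.Thin (tlog)
open Pool.Agent.U839.Gb (SS SS_mgf SS_int SS_eq SS_meas)

variable {Ω : Type*} [MeasurableSpace Ω] {μ : Measure Ω} [IsProbabilityMeasure μ]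

open Classical in
/-- the number of events that occur, if the probabilities are small -/
theorem count_up (B : ℕ → Set Ω) (hB : ∀ n, MeasurableSet (B n)) (C a b : ℝ) (hb : 0 ≤ b)
    (hab : 1 < a + b) (h : ∀ᶠ n : ℕ in atTop, μ.real (B n) ≤ C * (1 / (n : ℝ) ^ a)) :
    ∀ᵐ ω ∂μ, ∃ M : ℝ, 0 < M ∧ ∀ X : ℕ, 1 ≤ X →
      (((range (X + 1)).filter (fun n => ω ∈ B n)).card : ℝ) ≤ M * (X : ℝ) ^ b := by
  obtain ⟨n₀, hn₀⟩ := eventually_atTop.1 (h.and (eventually_ge_atTop 1))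
  obtain ⟨B', hB'⟩ : ∃ B' : ℕ → Set Ω, B' = fun n => if n₀ ≤ n then B n else ∅ := ⟨_, rfl⟩
  have hB'm : ∀ n, MeasurableSet (B' n) := by
    intro n
    rw [hB']
    simp only
    split_ifs
    · exact hB n
    · exact MeasurableSet.empty
  have hsum : Summable (fun n : ℕ => C * (1 / (n : ℝ) ^ (a + b))) :=
    (Real.summable_one_div_nat_rpow.2 hab).mul_left C
  have h1 : ∀ n, ∫⁻ ω, (B' n).indicator (fun _ => ENNReal.ofReal (1 / (n : ℝ) ^ b)) ω ∂μ ≤
      ENNReal.ofReal (C * (1 / (n : ℝ) ^ (a + b))) := by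
    intro n
    rw [lintegral_indicator_const (hB'm n)]
    rw [hB']
    simp only
    split_ifs with hn
    · obtain ⟨g1, g2⟩ := hn₀ n hn
      have hn0 : (0 : ℝ) < n := by exact_mod_cast g2
      rw [← ENNReal.ofReal_toReal (measure_ne_top μ (B n)), ← ENNReal.ofReal_mul (by positivity)]
      apply ENNReal.ofReal_le_ofReal
      have g3 : (μ (B n)).toReal ≤ C * (1 / (n : ℝ) ^ a) := g1
      calc 1 / (n : ℝ) ^ b * (μ (B n)).toReal ≤ 1 / (n : ℝ) ^ b * (C * (1 / (n : ℝ) ^ a)) := by gcongr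
        _ = C * (1 / (n : ℝ) ^ (a + b)) := by
          rw [Real.rpow_add hn0]
          field_simp
    · simp
  have h2 : ∫⁻ ω, ∑' n, (B' n).indicator (fun _ => ENNReal.ofReal (1 / (n : ℝ) ^ b)) ω ∂μ ≠ ⊤ := by
    rw [lintegral_tsum (fun n => (measurable_const.indicator (hB'm n)).aemeasurable)]
    exact ne_top_of_le_ne_top hsum.tsum_ofReal_ne_top (ENNReal.tsum_le_tsum h1)
  have h3 := ae_lt_top (Measurable.tsum (fun n => (measurable_const.indicator (hB'm n)) :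
    ∀ n, Measurable ((B' n).indicator (fun _ => ENNReal.ofReal (1 / (n : ℝ) ^ b))))) h2
  filter_upwards [h3] with ω hω
  obtain ⟨M, hM⟩ : ∃ M, M = ∑' n, (B' n).indicator (fun _ => ENNReal.ofReal (1 / (n : ℝ) ^ b)) ω := ⟨_, rfl⟩
  rw [← hM] at hω
  refine ⟨n₀ + M.toReal + 1, by positivity, fun X hX => ?_⟩
  have hX1 : (1 : ℝ) ≤ X := by exact_mod_cast hX
  have hX0 : (0 : ℝ) < X := by linarith
  have hXb : 1 ≤ (X : ℝ) ^ b := Real.one_le_rpow hX1 hb
  have g1 : ∑ n ∈ (range (X + 1)).filter (fun n => ω ∈ B' n), ENNReal.ofReal (1 / (X : ℝ) ^ b) ≤ M := by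
    rw [hM]
    refine le_trans ?_ (ENNReal.sum_le_tsum ((range (X + 1)).filter (fun n => ω ∈ B' n)))
    apply sum_le_sum
    intro n hn
    rw [mem_filter, mem_range] at hn
    rw [Set.indicator_of_mem hn.2]
    apply ENNReal.ofReal_le_ofReal
    have hn1 : 1 ≤ n := by
      have := hn.2
      rw [hB'] at this
      simp only at this
      split_ifs at this with hnn
      · exact (hn₀ n hnn).2
      · exact absurd this (Set.notMem_empty _)
    have hn0 : (0 : ℝ) < n := by exact_mod_cast hn1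
    apply one_div_le_one_div_of_le (Real.rpow_pos_of_pos hn0 _)
    apply Real.rpow_le_rpow hn0.le _ hb
    exact_mod_cast (by omega : n ≤ X)
  rw [sum_const, nsmul_eq_mul] at g1
  have g2 := ENNReal.toReal_mono hω.ne g1
  rw [ENNReal.toReal_mul, ENNReal.toReal_natCast, ENNReal.toReal_ofReal (by positivity), mul_one_div,
    div_le_iff₀ (by positivity)] at g2
  have g3 : (range (X + 1)).filter (fun n => ω ∈ B n) ⊆ range n₀ ∪ (range (X + 1)).filter (fun n => ω ∈ B' n) := by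
    intro n hn
    rw [mem_filter] at hn
    rw [mem_union, mem_range, mem_filter]
    by_cases hnn : n < n₀
    · exact Or.inl hnn
    · right
      refine ⟨hn.1, ?_⟩
      rw [hB']
      simp only
      rw [if_pos (by omega)]
      exact hn.2
  have g4 := (card_le_card g3).trans (card_union_le _ _)
  rw [card_range] at g4
  have g5 : (((range (X + 1)).filter (fun n => ω ∈ B n)).card : ℝ) ≤
      n₀ + (((range (X + 1)).filter (fun n => ω ∈ B' n)).card : ℝ) := by exact_mod_cast g4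
  have g6 : (n₀ : ℝ) ≤ n₀ * (X : ℝ) ^ b := le_mul_of_one_le_right (Nat.cast_nonneg _) hXb
  nlinarith

/-- expected numbers -/
theorem sum_up (T : ℕ → ℕ) (hT : Monotone T)
    (hTl : ∀ θ : ℝ, 0 < θ → ∀ᶠ n : ℕ in atTop, (T n : ℝ) ≤ (Real.log n) ^ θ) (s δ : ℝ) (hs : 0 < s)
    (hδ : 0 < δ) : ∀ᶠ n : ℕ in atTop, (1 - δ) * s * Real.log n ≤
      ∑ m ∈ Ioc n (n + wn s n), fT T m / Real.log m := by
  obtain ⟨θ, hθ, H⟩ := regular (δ / 2) (by positivity)
  filter_upwards [H T hT (hTl θ hθ) s hs, tlog.eventually_ge_atTop (2 / δ),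
    log_sq_small s 1 hs one_pos, tlog.eventually_ge_atTop 1, eventually_ge_atTop 2] with n g1 g2 g3 g4 g5
  have hn0 : (0 : ℝ) < n := by exact_mod_cast (by omega : 0 < n)
  have h2 := (abs_le.1 (g1 n le_rfl (by omega))).1
  rw [Real.rpow_one] at g3
  obtain ⟨L, hL⟩ : ∃ L, L = Real.log n := ⟨_, rfl⟩
  obtain ⟨K, hK⟩ : ∃ K, K = wn s n := ⟨_, rfl⟩
  have hKL : (K : ℝ) ≤ s * L ^ 2 := by
    rw [hK, hL]
    exact Nat.floor_le (by positivity)
  rw [← hL] at g2 g3 g4 h2 ⊢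
  rw [← hK] at h2 ⊢
  have hKn : (K : ℝ) ≤ n := by linarith
  have hlog2 : Real.log (2 * n) ≤ L + 1 := by
    rw [Real.log_mul (by norm_num) hn0.ne', hL]
    have := Real.log_two_lt_d9
    linarith
  have h5 : (∑ m ∈ Ioc n (n + K), fT T m) / (L + 1) ≤
      ∑ m ∈ Ioc n (n + K), fT T m / Real.log m := by
    rw [Finset.sum_div]
    apply Finset.sum_le_sum
    intro m hm
    rw [Finset.mem_Ioc] at hm
    have hm1 : (1 : ℝ) < m := by exact_mod_cast (by omega : 1 < m)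
    apply div_le_div_of_nonneg_left (fT_nonneg T m) (Real.log_pos hm1)
    refine le_trans ?_ hlog2
    apply Real.log_le_log (by linarith)
    have : (m : ℝ) ≤ ((n + K : ℕ) : ℝ) := by exact_mod_cast hm.2
    push_cast at this
    linarith
  refine le_trans ?_ h5
  rw [le_div_iff₀ (by linarith)]
  have h6 : (1 - δ / 2) * (s * L ^ 2) ≤ ∑ m ∈ Ioc n (n + K), fT T m := by linarith
  refine le_trans ?_ h6
  have h7 : 2 ≤ L * δ := by
    rw [div_le_iff₀ hδ] at g2
    exact g2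
  have h8 : (1 - δ) * (L * (L + 1)) ≤ (1 - δ / 2) * L ^ 2 := by nlinarith
  calc (1 - δ) * s * L * (L + 1) = s * ((1 - δ) * (L * (L + 1))) := by ring
    _ ≤ s * ((1 - δ / 2) * L ^ 2) := by gcongr
    _ = _ := by ring

/-- all chains -/
theorem upper_vec (T : ℕ → ℕ) (hT : Monotone T)
    (hTl : ∀ θ : ℝ, 0 < θ → ∀ᶠ n : ℕ in atTop, (T n : ℝ) ≤ (Real.log n) ^ θ) {E : ℕ → Set Ω}
    (hE : Sieved μ E T) (k : ℕ) (e : ℝ) (he : 0 < e) (he1 : e ≤ 1) :
    ∀ᵐ ω ∂μ, ∀ᶠ i : ℕ in atTop, (qn {n | ω ∈ E n} (i + k) : ℝ) - qn {n | ω ∈ E n} i ≤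
      (1 + e) * (Real.log (qn {n | ω ∈ E n} i)) ^ 2 := by
  classical
  have hTs := sub_pow T 1 (hTl 1 one_pos)
  have h1 := many (μ := μ) hE.meas hE.indep (fun n => fT T n / Real.log n) (law' hE hTs) (wn (1 + e))
    ((1 - e / 4) * (1 + e)) (by nlinarith) (sum_up T hT hTl (1 + e) (e / 4) (by linarith) (by linarith)) k
  filter_upwards [h1, inf hE hT hTs] with ω h1 h2
  obtain ⟨Q, hQd⟩ : ∃ Q, Q = {n | ω ∈ E n} := ⟨_, rfl⟩
  have hQ : Q.Infinite := by rw [hQd]; exact h2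
  rw [← hQd]
  have htend : Tendsto (qn Q) atTop atTop := (qn_mono Q hQ).tendsto_atTop
  filter_upwards [htend.eventually h1] with i hi
  have h3 := after Q hQ i (wn (1 + e) (qn Q i)) k (by
    refine hi.le.trans (le_of_eq ?_)
    rw [hQd]
    congr)
  have h4 : (qn Q (i + k) : ℝ) ≤ qn Q i + wn (1 + e) (qn Q i) := by exact_mod_cast h3
  have h5 : (wn (1 + e) (qn Q i) : ℝ) ≤ (1 + e) * (Real.log (qn Q i)) ^ 2 := Nat.floor_le (by positivity)
  linarith

/-- few chains of large gaps -/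
theorem count_vec (T : ℕ → ℕ) (hT : Monotone T)
    (hTl : ∀ θ : ℝ, 0 < θ → ∀ᶠ n : ℕ in atTop, (T n : ℝ) ≤ (Real.log n) ^ θ) {E : ℕ → Set Ω}
    (hE : Sieved μ E T) (k : ℕ) (s e : ℝ) (hs : 0 < s) (hs1 : s ≤ 1) (he : 0 < e) (he1 : e ≤ 1) :
    ∀ᵐ ω ∂μ, ∀ᶠ X : ℕ in atTop, ({i | qn {n | ω ∈ E n} i ≤ X ∧
      s * (Real.log (qn {n | ω ∈ E n} i)) ^ 2 ≤
        (qn {n | ω ∈ E n} (i + k) : ℝ) - qn {n | ω ∈ E n} i}.ncard : ℝ) ≤ (X : ℝ) ^ (1 - s + e) := by
  classical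
  have hTs := sub_pow T 1 (hTl 1 one_pos)
  obtain ⟨δ, hδ⟩ : ∃ δ, δ = e / 8 := ⟨_, rfl⟩
  have hδ0 : 0 < δ := by rw [hδ]; positivity
  have hδ1 : δ ≤ 1 := by rw [hδ]; linarith
  have hexp : 1 < (1 - δ) * ((1 - δ) * s) + (1 - s + e / 2) := by
    have f1 : s * (2 * δ - δ ^ 2) ≤ 1 * (2 * δ - δ ^ 2) := by
      apply mul_le_mul_of_nonneg_right hs1
      nlinarith
    nlinarith
  have h1 := count_up (μ := μ) (fun n => {ω | SS E (Ioc n (n + wn s n)) ω ≤ k}) (fun n =>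
    measurableSet_le (SS_meas E hE.meas _) measurable_const) ((1 / δ) ^ k) ((1 - δ) * ((1 - δ) * s)) (1 - s + e / 2)
    (by linarith) hexp (by
      filter_upwards [sum_up T hT hTl s δ hs hδ0, eventually_ge_atTop 1, eventually_forall_ge_atTop.2 (law' hE hTs)]
        with n g1 g2 g3
      have hn0 : (0 : ℝ) < n := by exact_mod_cast g2
      have h1 : ∑ a ∈ Ioc n (n + wn s n), μ.real (E a) = ∑ a ∈ Ioc n (n + wn s n), fT T a / Real.log a := by
        apply Finset.sum_congr rfl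
        intro a ha
        rw [mem_Ioc] at ha
        exact g3 a ha.1.le
      refine (few hE.meas hE.indep _ k δ ((1 - δ) * s * Real.log n) hδ0 hδ1 (by rw [h1]; exact g1)).trans ?_
      apply mul_le_mul_of_nonneg_left _ (by positivity)
      rw [one_div, ← Real.rpow_neg hn0.le, Real.rpow_def_of_pos hn0]
      apply Real.exp_le_exp.2
      apply le_of_eq
      ring)
  filter_upwards [h1, inf hE hT hTs] with ω h1 h2
  obtain ⟨Q, hQd⟩ : ∃ Q, Q = {n | ω ∈ E n} := ⟨_, rfl⟩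
  have hQ : Q.Infinite := by rw [hQd]; exact h2
  rw [← hQd]
  obtain ⟨M, hM, h3⟩ := h1
  have e5 : ∀ᶠ x : ℕ in atTop, M ≤ (x : ℝ) ^ (e / 2) :=
    ((tendsto_rpow_atTop (half_pos he)).comp tendsto_natCast_atTop_atTop).eventually_ge_atTop _
  filter_upwards [eventually_ge_atTop 1, e5] with X g1 g2
  have hX0 : (0 : ℝ) < X := by exact_mod_cast g1
  have h4 := h3 X g1
  have h5 : {i | qn Q i ≤ X ∧ s * (Real.log (qn Q i)) ^ 2 ≤ (qn Q (i + k) : ℝ) - qn Q i}.ncard ≤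
      ((range (X + 1)).filter (fun n => ω ∈ (fun n => {ω | SS E (Ioc n (n + wn s n)) ω ≤ k}) n)).card := by
    rw [← Set.ncard_coe_finset]
    apply Set.ncard_le_ncard_of_injOn (qn Q) _ ((qn_mono Q hQ).injective.injOn) (Finset.finite_toSet _)
    rintro i ⟨hi1, hi2⟩
    rw [Finset.mem_coe, mem_filter, mem_range]
    refine ⟨by omega, ?_⟩
    change SS E (Ioc (qn Q i) (qn Q i + wn s (qn Q i))) ω ≤ k
    rw [SS_eq]
    by_contra hcon
    push Not at hcon
    have h6 : k + 1 ≤ ((Ioc (qn Q i) (qn Q i + wn s (qn Q i))).filter (fun m => m ∈ Q)).card := by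
      have h7 : k < ((Ioc (qn Q i) (qn Q i + wn s (qn Q i))).filter (fun m => ω ∈ E m)).card := by
        exact_mod_cast hcon
      refine (Nat.succ_le_of_lt h7).trans (le_of_eq ?_)
      congr 1
      apply filter_congr
      intro m _
      rw [hQd]
      exact Iff.rfl
    have h8 := after Q hQ i (wn s (qn Q i)) (k + 1) h6
    have h9 : qn Q (i + k) < qn Q (i + (k + 1)) := qn_mono Q hQ (by omega)
    have h10 : (qn Q (i + k) : ℝ) + 1 ≤ qn Q i + wn s (qn Q i) := by exact_mod_cast (by omega :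
      qn Q (i + k) + 1 ≤ qn Q i + wn s (qn Q i))
    have h11 : (wn s (qn Q i) : ℝ) ≤ s * (Real.log (qn Q i)) ^ 2 := Nat.floor_le (by positivity)
    linarith
  have h6 : ({i | qn Q i ≤ X ∧ s * (Real.log (qn Q i)) ^ 2 ≤ (qn Q (i + k) : ℝ) - qn Q i}.ncard : ℝ) ≤
      M * (X : ℝ) ^ (1 - s + e / 2) := by
    refine le_trans ?_ h4
    exact_mod_cast h5
  refine h6.trans ?_
  calc M * (X : ℝ) ^ (1 - s + e / 2) ≤ (X : ℝ) ^ (e / 2) * (X : ℝ) ^ (1 - s + e / 2) := by gcongr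
    _ = (X : ℝ) ^ (1 - s + e) := by
      rw [← Real.rpow_add hX0]
      congr 1
      ring

end Pool.Agent.U839.Ch
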