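import Mathlib
import Pool.Agent.U839.Ch.Up

set_option autoImplicit false

/-! # The law of the chains of gaps -/

open MeasureTheory ProbabilityTheory Filter Finset Topology

namespace Pool.Agent.U839.Ch

open Pool.Agent.U839.Sv (wn Sieved inf sub_pow GS partB GS_bdd)
open Pool.Agent.U839.Thin (tlog)

variable {Ω : Type*} [MeasurableSpace Ω] {μ : Measure Ω} [IsProbabilityMeasure μ]

/-- `k` consecutive gaps -/
noncomputable def V (Q : Set ℕ) (k i : ℕ) : Fin k → ℝ := fun j =>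
  ((qn Q (i + j + 1) : ℝ) - qn Q (i + j)) / (Real.log (qn Q i)) ^ 2

/-- the places up to `X` where the gaps are near `y` -/
def near (Q : Set ℕ) (k : ℕ) (y : Fin k → ℝ) (ε : ℝ) (X : ℕ) : Set ℕ :=
  {i | qn Q i ≤ X ∧ ∀ j, |V Q k i j - y j| < ε}

theorem near_fin (Q : Set ℕ) (hQ : Q.Infinite) (X : ℕ) : {i | qn Q i ≤ X}.Finite := by
  apply (Set.finite_Iic X).subset
  intro i hi
  exact ((qn_mono Q hQ).id_le i).trans hi

theorem V_sum (Q : Set ℕ) (k i : ℕ) : ∑ j, V Q k i j = ((qn Q (i + k) : ℝ) - qn Q i) / (Real.log (qn Q i)) ^ 2 := by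
  unfold V
  rw [← Finset.sum_div]
  congr 1
  have h1 := Finset.sum_range_sub (fun j => (qn Q (i + j) : ℝ)) k
  rw [add_zero] at h1
  rw [← h1, Finset.sum_range]
  apply sum_congr rfl
  intro j _
  rfl

theorem V_nonneg (Q : Set ℕ) (hQ : Q.Infinite) (k i : ℕ) (j : Fin k) : 0 ≤ V Q k i j := by
  unfold V
  apply div_nonneg _ (sq_nonneg _)
  have : qn Q (i + j) ≤ qn Q (i + j + 1) := (qn_mono Q hQ).monotone (Nat.le_succ _)
  rw [sub_nonneg]
  exact_mod_cast this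

/-- lower bounds -/
theorem many_law (T : ℕ → ℕ) (hT : Monotone T)
    (hTl : ∀ θ : ℝ, 0 < θ → ∀ᶠ n : ℕ in atTop, (T n : ℝ) ≤ (Real.log n) ^ θ) {E : ℕ → Set Ω}
    (hE : Sieved μ E T) : ∀ᵐ ω ∂μ, ∀ (k : ℕ) (y : Fin k → ℝ), (∀ j, 0 ≤ y j) → ∑ j, y j ≤ 1 →
      ∀ ε : ℝ, 0 < ε → ∀ᶠ X : ℕ in atTop, (X : ℝ) ^ (1 - ∑ j, y j - ε) ≤
        ({i | i ∈ near {n | ω ∈ E n} k y ε X ∧ X < 4 * qn {n | ω ∈ E n} i}.ncard : ℝ) := by
  classical
  have hTs := sub_pow T 1 (hTl 1 one_pos)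
  have A1 : ∀ᵐ ω ∂μ, ∀ (k : ℕ) (y : Fin k → ℚ) (N : ℕ),
      (∀ j : Fin k, 1 / ((N : ℝ) + 1) ≤ (y j : ℝ)) → ∑ j, (y j : ℝ) + 1 / ((N : ℝ) + 1) < 1 →
      ∀ᶠ x : ℕ in atTop, ∃ I : Finset ℕ,
        (x : ℝ) ^ (1 - ∑ j, (y j : ℝ) - 1 / ((N : ℝ) + 1) - 1 / ((N : ℝ) + 1)) ≤ I.card ∧
      ∀ i ∈ I, x < qn {n | ω ∈ E n} i ∧ qn {n | ω ∈ E n} i ≤ 3 * x ∧ ∀ j : Fin k,
        |V {n | ω ∈ E n} k i j - y j| ≤ 2 * (1 / ((N : ℝ) + 1)) := by
    refine ae_all_iff.2 (fun k => ae_all_iff.2 (fun y => ae_all_iff.2 (fun N => ?_)))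
    by_cases h1 : ∀ j : Fin k, 1 / ((N : ℝ) + 1) ≤ (y j : ℝ)
    · by_cases h2 : ∑ j, (y j : ℝ) + 1 / ((N : ℝ) + 1) < 1
      · obtain ⟨z, hz⟩ : ∃ z : ℕ → ℝ, z = fun j => if h : j < k then (y ⟨j, h⟩ : ℝ) else 0 := ⟨_, rfl⟩
        have hz1 : ∀ j : Fin k, z j = y j := by
          intro j
          rw [hz]
          simp only
          rw [dif_pos j.2]
        have hz2 : Ys z k = ∑ j, (y j : ℝ) := by
          unfold Ys
          rw [Finset.sum_range]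
          exact sum_congr rfl (fun j _ => hz1 j)
        have h3 := low_vec (μ := μ) T hT hTl hE k z (1 / ((N : ℝ) + 1)) (by positivity) (by
          intro j hj
          have := h1 ⟨j, hj⟩
          rw [← hz1 ⟨j, hj⟩] at this
          exact this) (by rw [hz2]; exact h2) (1 / ((N : ℝ) + 1)) (by positivity)
        rw [hz2] at h3
        filter_upwards [h3] with ω h3 _ _
        filter_upwards [h3] with x hx
        obtain ⟨I, hI1, hI2⟩ := hx
        refine ⟨I, hI1, fun i hi => ?_⟩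
        obtain ⟨g1, g2, g3⟩ := hI2 i hi
        refine ⟨g1, g2, fun j => ?_⟩
        rw [← hz1 j]
        exact g3 j j.2
      · exact Eventually.of_forall (fun ω _ h => absurd h h2)
    · exact Eventually.of_forall (fun ω h => absurd h h1)
  filter_upwards [A1, inf hE hT hTs] with ω A1 A2
  obtain ⟨Q, hQd⟩ : ∃ Q, Q = {n | ω ∈ E n} := ⟨_, rfl⟩
  rw [← hQd] at A1 A2 ⊢
  intro k y hy0 hy1 ε hε
  obtain ⟨u, hu⟩ : ∃ u : ℝ, u = min ε 1 / 4 := ⟨_, rfl⟩
  have hu0 : 0 < u := by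
    rw [hu]
    have : 0 < min ε 1 := lt_min hε one_pos
    linarith
  have hu1 : 4 * u ≤ ε := by
    rw [hu]
    have := min_le_left ε 1
    linarith
  have hu2 : 4 * u ≤ 1 := by
    rw [hu]
    have := min_le_right ε 1
    linarith
  have hk : (0 : ℝ) < (k : ℝ) + 1 := by positivity
  obtain ⟨N, hN⟩ := exists_nat_one_div_lt (show 0 < u / (4 * ((k : ℝ) + 1)) by positivity)
  obtain ⟨e, he⟩ : ∃ e : ℝ, e = 1 / ((N : ℝ) + 1) := ⟨_, rfl⟩
  have he0 : 0 < e := by rw [he]; positivity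
  rw [← he] at hN
  have heu : 4 * ((k : ℝ) + 1) * e ≤ u := by
    rw [lt_div_iff₀ (by positivity)] at hN
    linarith
  have hk0 : (0 : ℝ) ≤ k := Nat.cast_nonneg k
  have heu' : 4 * e ≤ u := by nlinarith
  have hr : ∀ j : Fin k, ∃ r : ℚ, (1 - u) * y j + e < r ∧ (r : ℝ) < (1 - u) * y j + 2 * e := fun j =>
    exists_rat_btwn (by linarith)
  choose r hr1 hr2 using hr
  have hsum : ∑ j, (r j : ℝ) ≤ (1 - u) * ∑ j, y j + 2 * k * e := by
    calc ∑ j, (r j : ℝ) ≤ ∑ j, ((1 - u) * y j + 2 * e) := sum_le_sum (fun j _ => (hr2 j).le)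
      _ = (1 - u) * ∑ j, y j + 2 * k * e := by
        rw [sum_add_distrib, ← Finset.mul_sum, sum_const, card_univ, Fintype.card_fin, nsmul_eq_mul]
        ring
  obtain ⟨s, hs⟩ : ∃ s, s = ∑ j, y j := ⟨_, rfl⟩
  have hs0 : 0 ≤ s := by rw [hs]; exact sum_nonneg (fun j _ => hy0 j)
  rw [← hs] at hsum hy1 ⊢
  obtain ⟨a, ha⟩ : ∃ a, a = 1 - ∑ j, (r j : ℝ) - e - e := ⟨_, rfl⟩
  have ha0 : u / 2 ≤ a := by
    rw [ha]
    nlinarith
  have ha1 : a ≤ 1 := by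
    rw [ha]
    have : 0 ≤ ∑ j, (r j : ℝ) := sum_nonneg (fun j _ => by
      have h1 := hr1 j
      have h2 : 0 ≤ (1 - u) * y j := mul_nonneg (by linarith) (hy0 j)
      linarith)
    linarith
  have ha2 : 1 - s - ε ≤ a - u / 2 := by
    rw [ha]
    nlinarith
  have h1 := A1 k r N (fun j => by
    rw [← he]
    have h1 := hr1 j
    have h2 : 0 ≤ (1 - u) * y j := mul_nonneg (by linarith) (hy0 j)
    linarith) (by
      rw [← he]
      linarith)
  rw [← he, ← ha] at h1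
  have hdiv : Tendsto (fun X : ℕ => X / 3) atTop atTop := Nat.tendsto_div_const_atTop (by norm_num)
  have e5 : ∀ᶠ x : ℕ in atTop, (6 : ℝ) ≤ (x : ℝ) ^ (u / 2) :=
    ((tendsto_rpow_atTop (half_pos hu0)).comp tendsto_natCast_atTop_atTop).eventually_ge_atTop _
  filter_upwards [hdiv.eventually h1, e5, eventually_ge_atTop 30] with X g1 g2 g3
  obtain ⟨I, hI1, hI2⟩ := g1
  have hX1 : (1 : ℝ) ≤ X := by exact_mod_cast (by omega : 1 ≤ X)
  have hX0 : (0 : ℝ) < X := by linarith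
  have h2 : (X : ℝ) ^ (1 - s - ε) ≤ I.card := by
    refine le_trans ?_ hI1
    have h3 : (X : ℝ) / 6 ≤ ((X / 3 : ℕ) : ℝ) := by
      rw [div_le_iff₀ (by norm_num)]
      exact_mod_cast (by omega : X ≤ X / 3 * 6)
    have h4 : ((X : ℝ) / 6) ^ a ≤ (((X / 3 : ℕ) : ℝ)) ^ a := Real.rpow_le_rpow (by positivity) h3 (by linarith)
    refine le_trans ?_ h4
    rw [Real.div_rpow hX0.le (by norm_num), le_div_iff₀ (by positivity)]
    have h5 : (6 : ℝ) ^ a ≤ 6 := by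
      calc (6 : ℝ) ^ a ≤ 6 ^ (1 : ℝ) := Real.rpow_le_rpow_of_exponent_le (by norm_num) ha1
        _ = 6 := Real.rpow_one _
    calc (X : ℝ) ^ (1 - s - ε) * 6 ^ a ≤ (X : ℝ) ^ (a - u / 2) * (X : ℝ) ^ (u / 2) := by
          apply mul_le_mul _ (h5.trans g2) (by positivity) (by positivity)
          exact Real.rpow_le_rpow_of_exponent_le hX1 ha2
      _ = (X : ℝ) ^ a := by
          rw [← Real.rpow_add hX0]
          congr 1
          ring
  refine h2.trans ?_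
  have h3 : (I : Set ℕ).ncard ≤ {i | i ∈ near Q k y ε X ∧ X < 4 * qn Q i}.ncard := by
    apply Set.ncard_le_ncard
    · intro i hi
      obtain ⟨f1, f2, f3⟩ := hI2 i (by exact_mod_cast hi)
      refine ⟨⟨by omega, fun j => ?_⟩, by omega⟩
      have f4 := f3 j
      have f5 := hr1 j
      have f6 := hr2 j
      have f7 : y j ≤ 1 := by
        refine le_trans ?_ hy1
        rw [hs]
        exact Finset.single_le_sum (f := y) (fun i _ => hy0 i) (mem_univ j)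
      have f8 : |(r j : ℝ) - y j| ≤ u + 2 * e := by
        have f9 : u * y j ≤ u := by nlinarith
        have f10 : 0 ≤ u * y j := mul_nonneg hu0.le (hy0 j)
        rw [abs_le]
        constructor <;> nlinarith
      calc |V Q k i j - y j| = |(V Q k i j - r j) + (r j - y j)| := by ring_nf
        _ ≤ |V Q k i j - r j| + |(r j : ℝ) - y j| := abs_add_le _ _
        _ ≤ 2 * e + (u + 2 * e) := add_le_add f4 f8
        _ < ε := by linarith
    · apply (near_fin Q A2 X).subset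
      rintro i ⟨⟨hi, -⟩, -⟩
      exact hi
  rw [Set.ncard_coe_finset] at h3
  exact_mod_cast h3

/-- upper bounds -/
theorem few_law (T : ℕ → ℕ) (hT : Monotone T)
    (hTl : ∀ θ : ℝ, 0 < θ → ∀ᶠ n : ℕ in atTop, (T n : ℝ) ≤ (Real.log n) ^ θ) {E : ℕ → Set Ω}
    (hE : Sieved μ E T) : ∀ᵐ ω ∂μ, ∀ (k : ℕ) (y : Fin k → ℝ), (∀ j, 0 ≤ y j) → ∑ j, y j ≤ 1 →
      ∀ ε : ℝ, 0 < ε → ∀ᶠ X : ℕ in atTop, ((near {n | ω ∈ E n} k y ε X).ncard : ℝ) ≤
        (X : ℝ) ^ (1 - ∑ j, y j + (k + 1) * ε) := by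
  classical
  have hTs := sub_pow T 1 (hTl 1 one_pos)
  have A1 : ∀ᵐ ω ∂μ, ∀ (k : ℕ) (s : ℚ) (N : ℕ), (0 : ℝ) < s → (s : ℝ) ≤ 1 →
      ∀ᶠ X : ℕ in atTop, ({i | qn {n | ω ∈ E n} i ≤ X ∧
      s * (Real.log (qn {n | ω ∈ E n} i)) ^ 2 ≤
        (qn {n | ω ∈ E n} (i + k) : ℝ) - qn {n | ω ∈ E n} i}.ncard : ℝ) ≤
          (X : ℝ) ^ (1 - s + 1 / ((N : ℝ) + 1)) := by
    refine ae_all_iff.2 (fun k => ae_all_iff.2 (fun s => ae_all_iff.2 (fun N => ?_)))
    by_cases h1 : (0 : ℝ) < s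
    · by_cases h2 : (s : ℝ) ≤ 1
      · have h3 := count_vec (μ := μ) T hT hTl hE k s (1 / ((N : ℝ) + 1)) h1 h2 (by positivity) (by
          rw [div_le_one (by positivity)]
          have : (0 : ℝ) ≤ N := Nat.cast_nonneg N
          linarith)
        filter_upwards [h3] with ω h3 _ _
        exact h3
      · exact Eventually.of_forall (fun ω _ h => absurd h h2)
    · exact Eventually.of_forall (fun ω h => absurd h h1)
  filter_upwards [A1, inf hE hT hTs] with ω A1 A2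
  obtain ⟨Q, hQd⟩ : ∃ Q, Q = {n | ω ∈ E n} := ⟨_, rfl⟩
  rw [← hQd] at A1 A2 ⊢
  intro k y hy0 hy1 ε hε
  obtain ⟨s, hs⟩ : ∃ s, s = ∑ j, y j - k * ε := ⟨_, rfl⟩
  have hexp : 1 - ∑ j, y j + (k + 1) * ε = 1 - s + ε := by
    rw [hs]
    ring
  rw [hexp]
  have hk0 : (0 : ℝ) ≤ k := Nat.cast_nonneg k
  have hs1 : s ≤ 1 := by
    rw [hs]
    nlinarith
  by_cases hs0 : s ≤ 0
  · have e5 : ∀ᶠ x : ℕ in atTop, (2 : ℝ) ≤ (x : ℝ) ^ ε :=
      ((tendsto_rpow_atTop hε).comp tendsto_natCast_atTop_atTop).eventually_ge_atTop _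
    filter_upwards [e5, eventually_ge_atTop 1] with X g1 g2
    have hX1 : (1 : ℝ) ≤ X := by exact_mod_cast g2
    have hX0 : (0 : ℝ) < X := by linarith
    have h1 : (near Q k y ε X).ncard ≤ X + 1 := by
      calc (near Q k y ε X).ncard ≤ (Set.Iic X).ncard := by
            apply Set.ncard_le_ncard _ (Set.finite_Iic X)
            rintro i ⟨hi, -⟩
            exact ((qn_mono Q A2).id_le i).trans hi
        _ = X + 1 := by
          rw [← Finset.coe_Iic, Set.ncard_coe_finset, Nat.card_Iic]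
    have h2 : ((near Q k y ε X).ncard : ℝ) ≤ X + 1 := by exact_mod_cast h1
    calc ((near Q k y ε X).ncard : ℝ) ≤ X * 2 := by linarith
      _ ≤ X * (X : ℝ) ^ ε := by gcongr
      _ = (X : ℝ) ^ (1 + ε) := by rw [Real.rpow_add hX0, Real.rpow_one]
      _ ≤ (X : ℝ) ^ (1 - s + ε) := Real.rpow_le_rpow_of_exponent_le hX1 (by linarith)
  · push Not at hs0
    obtain ⟨r, hr1, hr2⟩ := exists_rat_btwn (show max 0 (s - ε / 2) < s from max_lt hs0 (by linarith))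
    obtain ⟨N, hN⟩ := exists_nat_one_div_lt (half_pos hε)
    have hr0 : (0 : ℝ) < r := (le_max_left _ _).trans_lt hr1
    have hr3 : s - ε / 2 < r := (le_max_right _ _).trans_lt hr1
    filter_upwards [A1 k r N hr0 (hr2.le.trans hs1), eventually_ge_atTop 1] with X g1 g2
    have hX1 : (1 : ℝ) ≤ X := by exact_mod_cast g2
    have h1 : (near Q k y ε X).ncard ≤
        {i | qn Q i ≤ X ∧ (r : ℝ) * (Real.log (qn Q i)) ^ 2 ≤ (qn Q (i + k) : ℝ) - qn Q i}.ncard := by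
      apply Set.ncard_le_ncard
      · rintro i ⟨hi, hi2⟩
        refine ⟨hi, ?_⟩
        have h2 : s ≤ ∑ j, V Q k i j := by
          have h3 : ∑ j : Fin k, (y j - ε) ≤ ∑ j, V Q k i j := by
            apply sum_le_sum
            intro j _
            have := (abs_lt.1 (hi2 j)).1
            linarith
          rw [sum_sub_distrib, sum_const, card_univ, Fintype.card_fin, nsmul_eq_mul] at h3
          rw [hs]
          exact h3
        rw [V_sum] at h2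
        have h4 : (0 : ℝ) ≤ (qn Q (i + k) : ℝ) - qn Q i := by
          rw [sub_nonneg]
          exact_mod_cast (qn_mono Q A2).monotone (Nat.le_add_right i k)
        rcases (sq_nonneg (Real.log (qn Q i))).eq_or_lt with h5 | h5
        · rw [← h5, mul_zero]
          exact h4
        · rw [le_div_iff₀ h5] at h2
          refine le_trans ?_ h2
          gcongr
      · apply (near_fin Q A2 X).subset
        rintro i ⟨hi, -⟩
        exact hi
    calc ((near Q k y ε X).ncard : ℝ) ≤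
        ({i | qn Q i ≤ X ∧ (r : ℝ) * (Real.log (qn Q i)) ^ 2 ≤ (qn Q (i + k) : ℝ) - qn Q i}.ncard : ℝ) := by
          exact_mod_cast h1
      _ ≤ (X : ℝ) ^ (1 - (r : ℝ) + 1 / ((N : ℝ) + 1)) := g1
      _ ≤ _ := Real.rpow_le_rpow_of_exponent_le hX1 (by linarith)

/-- all chains -/
theorem all_law (T : ℕ → ℕ) (hT : Monotone T)
    (hTl : ∀ θ : ℝ, 0 < θ → ∀ᶠ n : ℕ in atTop, (T n : ℝ) ≤ (Real.log n) ^ θ) {E : ℕ → Set Ω}
    (hE : Sieved μ E T) : ∀ᵐ ω ∂μ, ∀ (k : ℕ) (ε : ℝ), 0 < ε → ∀ᶠ i : ℕ in atTop,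
      (qn {n | ω ∈ E n} (i + k) : ℝ) - qn {n | ω ∈ E n} i ≤
        (1 + ε) * (Real.log (qn {n | ω ∈ E n} i)) ^ 2 := by
  have A1 : ∀ᵐ ω ∂μ, ∀ k N : ℕ, ∀ᶠ i : ℕ in atTop,
      (qn {n | ω ∈ E n} (i + k) : ℝ) - qn {n | ω ∈ E n} i ≤
        (1 + 1 / ((N : ℝ) + 1)) * (Real.log (qn {n | ω ∈ E n} i)) ^ 2 :=
    ae_all_iff.2 (fun k => ae_all_iff.2 (fun N =>
      upper_vec T hT hTl hE k (1 / ((N : ℝ) + 1)) (by positivity) (by
        rw [div_le_one (by positivity)]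
        have : (0 : ℝ) ≤ N := Nat.cast_nonneg N
        linarith)))
  filter_upwards [A1] with ω A1 k ε hε
  obtain ⟨N, hN⟩ := exists_nat_one_div_lt hε
  filter_upwards [A1 k N] with i hi
  refine hi.trans ?_
  gcongr

/-- the limit set -/
theorem limit_law (Q : Set ℕ) (hQ : Q.Infinite)
    (h1 : ∀ (k : ℕ) (y : Fin k → ℝ), (∀ j, 0 ≤ y j) → ∑ j, y j ≤ 1 →
      ∀ ε : ℝ, 0 < ε → ∀ᶠ X : ℕ in atTop, (X : ℝ) ^ (1 - ∑ j, y j - ε) ≤
        ({i | i ∈ near Q k y ε X ∧ X < 4 * qn Q i}.ncard : ℝ))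
    (h2 : ∀ (k : ℕ) (ε : ℝ), 0 < ε → ∀ᶠ i : ℕ in atTop,
      (qn Q (i + k) : ℝ) - qn Q i ≤ (1 + ε) * (Real.log (qn Q i)) ^ 2) (k : ℕ) :
    {y : Fin k → ℝ | MapClusterPt y atTop (V Q k)} = {y | (∀ j, 0 ≤ y j) ∧ ∑ j, y j ≤ 1} := by
  have htend : Tendsto (qn Q) atTop atTop := (qn_mono Q hQ).tendsto_atTop
  ext y
  constructor
  · intro hy
    change MapClusterPt y atTop (V Q k) at hy
    have hmem : ∀ ε : ℝ, 0 < ε → (∀ j, 0 ≤ y j) ∧ ∑ j, y j ≤ 1 + ε := by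
      intro ε hε
      have hcl : IsClosed {z : Fin k → ℝ | (∀ j, 0 ≤ z j) ∧ ∑ j, z j ≤ 1 + ε} := by
        have hset : {z : Fin k → ℝ | (∀ j, 0 ≤ z j) ∧ ∑ j, z j ≤ 1 + ε} =
            (⋂ j, {z : Fin k → ℝ | 0 ≤ z j}) ∩ {z : Fin k → ℝ | ∑ j, z j ≤ 1 + ε} := by
          ext z
          rw [Set.mem_inter_iff, Set.mem_iInter]
          exact Iff.rfl
        rw [hset]
        apply IsClosed.inter
        · exact isClosed_iInter (fun j => isClosed_le continuous_const (continuous_apply j))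
        · exact isClosed_le (continuous_finsetSum _ (fun j _ => continuous_apply j)) continuous_const
      have hev : ∀ᶠ i in atTop, V Q k i ∈ {z : Fin k → ℝ | (∀ j, 0 ≤ z j) ∧ ∑ j, z j ≤ 1 + ε} := by
        filter_upwards [h2 k ε hε, htend.eventually_ge_atTop 2] with i g1 g2
        refine ⟨V_nonneg Q hQ k i, ?_⟩
        rw [V_sum]
        have : 0 < Real.log (qn Q i) := Real.log_pos (by exact_mod_cast (by omega : 1 < qn Q i))
        rw [div_le_iff₀ (by positivity)]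
        exact g1
      have : ClusterPt y (𝓟 {z : Fin k → ℝ | (∀ j, 0 ≤ z j) ∧ ∑ j, z j ≤ 1 + ε}) :=
        ClusterPt.mono hy (le_principal_iff.2 hev)
      exact isClosed_iff_clusterPt.1 hcl y this
    refine ⟨(hmem 1 one_pos).1, ?_⟩
    apply le_of_forall_pos_le_add
    intro ε hε
    exact (hmem ε hε).2
  · rintro ⟨hy0, hy1⟩
    change MapClusterPt y atTop (V Q k)
    rw [mapClusterPt_iff_frequently]
    intro s hs
    obtain ⟨ε, hε, hball⟩ := Metric.mem_nhds_iff.1 hs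
    rw [frequently_atTop]
    intro a
    obtain ⟨X, g1, g2⟩ := ((h1 k y hy0 hy1 ε hε).and (eventually_ge_atTop (4 * qn Q a + 1))).exists
    have hX0 : (0 : ℝ) < X := by exact_mod_cast (by omega : 0 < X)
    have h3 : (0 : ℝ) < ({i | i ∈ near Q k y ε X ∧ X < 4 * qn Q i}.ncard : ℝ) :=
      (Real.rpow_pos_of_pos hX0 _).trans_le g1
    have h4 : {i | i ∈ near Q k y ε X ∧ X < 4 * qn Q i}.Nonempty := by
      apply Set.nonempty_of_ncard_ne_zero
      intro h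
      rw [h] at h3
      simp at h3
    obtain ⟨i, ⟨hi1, hi2⟩, hi3⟩ := h4
    refine ⟨i, ?_, ?_⟩
    · have h5 : qn Q a < qn Q i := by omega
      exact ((qn_mono Q hQ).lt_iff_lt.1 h5).le
    · apply hball
      rw [Metric.mem_ball, dist_pi_lt_iff hε]
      intro j
      rw [Real.dist_eq]
      exact hi2 j

/-- the converse -/
theorem conv (T : ℕ → ℕ) (hT : Monotone T)
    (hTs : ∀ ε : ℝ, 0 < ε → ∀ᶠ n : ℕ in atTop, (T n : ℝ) ≤ (n : ℝ) ^ ε) (E : ℕ → Set Ω)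
    (hE : Sieved μ E T) (h : ∀ᵐ ω ∂μ, ∀ ε : ℝ, 0 < ε → ∀ᶠ i : ℕ in atTop,
      (qn {n | ω ∈ E n} (i + 1) : ℝ) - qn {n | ω ∈ E n} i ≤
        (1 + ε) * (Real.log (qn {n | ω ∈ E n} i)) ^ 2) (θ : ℝ) (hθ : 0 < θ) :
    ∀ᶠ n : ℕ in atTop, (T n : ℝ) ≤ (Real.log n) ^ θ := by
  by_contra hcon
  rw [not_eventually] at hcon
  obtain ⟨δ, hδ, H⟩ := partB (θ / 2) (by positivity)
  have h1 := H T hT hTs Ω μ E hE
  obtain ⟨ω, ⟨h2, h3⟩, h0⟩ := ((h.and h1).and (inf hE hT hTs)).exists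
  obtain ⟨Q, hQd⟩ : ∃ Q, Q = {n | ω ∈ E n} := ⟨_, rfl⟩
  have hQ : Q.Infinite := by rw [hQd]; exact h0
  rw [← hQd] at h2 h3
  obtain ⟨i₀, hi₀⟩ := eventually_atTop.1 (h2 (δ / 2) (by positivity))
  have hmul : Tendsto (fun n : ℕ => 2 * n) atTop atTop := tendsto_id.const_mul_atTop' (by norm_num)
  have h5 : ∀ᶠ n : ℕ in atTop, (Real.log ((2 * n : ℕ) : ℝ)) ^ (θ / 2) ≤ (Real.log n) ^ θ := by
    filter_upwards [tlog.eventually_ge_atTop 2, eventually_ge_atTop 1] with n g1 g2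
    have hn0 : (0 : ℝ) < n := by exact_mod_cast g2
    have h6 : (Real.log n) ^ θ = ((Real.log n) ^ (2 : ℝ)) ^ (θ / 2) := by
      rw [← Real.rpow_mul (by linarith)]
      congr 1
      ring
    rw [h6]
    apply Real.rpow_le_rpow (Real.log_natCast_nonneg _) _ (by positivity)
    push_cast
    rw [Real.log_mul (by norm_num) hn0.ne', Real.rpow_two]
    have := Real.log_two_lt_d9
    nlinarith
  obtain ⟨n, g1, g2, g3, g4, g5, g6⟩ := (hcon.and_eventually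
    (h5.and ((hmul.eventually h3).and ((hmul.eventually (tlog.eventually_ge_atTop (qn Q i₀ + 1))).and
      ((hmul.eventually (eventually_ge_atTop (qn Q 0))).and (eventually_ge_atTop 2)))))).exists
  push Not at g1
  obtain ⟨X, hX⟩ : ∃ X, X = 2 * n := ⟨_, rfl⟩
  have h6 : X / 2 = n := by omega
  rw [← hX] at g2 g3 g4 g5
  rw [h6] at g3
  have h7 := g3 (g2.trans g1.le)
  have hmem : GS Q X ∈ {g | ∃ k, Nat.nth (· ∈ Q) k ≤ X ∧ g = Nat.nth (· ∈ Q) (k + 1) - Nat.nth (· ∈ Q) k} :=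
    Nat.sSup_mem ⟨_, 0, g5, rfl⟩ (GS_bdd Q hQ X)
  obtain ⟨k, hk1, hk2⟩ := hmem
  have hk3 : GS Q X = qn Q (k + 1) - qn Q k := hk2
  have hk4 : qn Q k ≤ X := hk1
  have hk5 : (GS Q X : ℝ) = (qn Q (k + 1) : ℝ) - qn Q k := by
    rw [hk3, Nat.cast_sub ((qn_mono Q hQ).monotone (Nat.le_succ k))]
  have hq0 : (0 : ℝ) ≤ qn Q i₀ := Nat.cast_nonneg _
  have hL : 1 ≤ Real.log X := by linarith
  by_cases hki : i₀ ≤ k
  · have h8 := hi₀ k hki
    have h9 : (Real.log (qn Q k)) ^ 2 ≤ (Real.log X) ^ 2 := by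
      apply pow_le_pow_left₀ (Real.log_natCast_nonneg _)
      rcases Nat.eq_zero_or_pos (qn Q k) with h10 | h10
      · rw [h10, Nat.cast_zero, Real.log_zero]
        linarith
      · exact Real.log_le_log (by exact_mod_cast h10) (by exact_mod_cast hk4)
    have h10 : (1 + δ / 2) * (Real.log (qn Q k)) ^ 2 ≤ (1 + δ / 2) * (Real.log X) ^ 2 := by gcongr
    have h11 : 0 < δ / 2 * (Real.log X) ^ 2 := by positivity
    rw [hk5] at h7
    nlinarith
  · push Not at hki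
    have h8 : qn Q (k + 1) ≤ qn Q i₀ := (qn_mono Q hQ).monotone hki
    have h9 : (qn Q (k + 1) : ℝ) ≤ qn Q i₀ := by exact_mod_cast h8
    have h10 : (0 : ℝ) ≤ qn Q k := Nat.cast_nonneg _
    rw [hk5] at h7
    have h11 : Real.log X ≤ (1 + δ) * (Real.log X) ^ 2 := by nlinarith
    linarith

end Pool.Agent.U839.Ch
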