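import Mathlib
import Pool.Agent.U839.Ch.Fin

set_option autoImplicit false

/-! # Chains of large gaps -/

open Filter Finset Topology

namespace Pool.Agent.U839.Ch

open Pool.Agent.U839.Thin (tlog)

/-- the largest minimum of `k` consecutive gaps -/
theorem chain_law (Q : Set ℕ) (hQ : Q.Infinite)
    (h1 : ∀ (k : ℕ) (y : Fin k → ℝ), (∀ j, 0 ≤ y j) → ∑ j, y j ≤ 1 →
      ∀ ε : ℝ, 0 < ε → ∀ᶠ X : ℕ in atTop, (X : ℝ) ^ (1 - ∑ j, y j - ε) ≤
        ({i | i ∈ near Q k y ε X ∧ X < 4 * qn Q i}.ncard : ℝ))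
    (h2 : ∀ (k : ℕ) (ε : ℝ), 0 < ε → ∀ᶠ i : ℕ in atTop,
      (qn Q (i + k) : ℝ) - qn Q i ≤ (1 + ε) * (Real.log (qn Q i)) ^ 2) (k : ℕ) (hk : 1 ≤ k) (ε : ℝ) (hε : 0 < ε) :
    ∀ᶠ X : ℕ in atTop,
      (∃ i, qn Q i ≤ X ∧ ∀ j < k, (1 - ε) / k * (Real.log X) ^ 2 ≤ (qn Q (i + j + 1) : ℝ) - qn Q (i + j)) ∧
      ∀ i, qn Q i ≤ X → ∃ j < k, (qn Q (i + j + 1) : ℝ) - qn Q (i + j) ≤ (1 + ε) / k * (Real.log X) ^ 2 := by
  have hk0 : (0 : ℝ) < k := by exact_mod_cast hk
  have hk1 : (1 : ℝ) ≤ k := by exact_mod_cast hk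
  obtain ⟨e, he⟩ : ∃ e, e = min ε 1 := ⟨_, rfl⟩
  have he0 : 0 < e := by rw [he]; exact lt_min hε one_pos
  have he1 : e ≤ 1 := by rw [he]; exact min_le_right _ _
  have he2 : e ≤ ε := by rw [he]; exact min_le_left _ _
  obtain ⟨i₀, hi₀⟩ := eventually_atTop.1 (h2 k ε hε)
  filter_upwards [h1 k (fun _ => 1 / k) (fun _ => by positivity) (by
      rw [sum_const, card_univ, Fintype.card_fin, nsmul_eq_mul]
      apply le_of_eq
      field_simp) (e / (2 * k)) (by positivity), tlog.eventually_ge_atTop (8 / e),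
      tlog.eventually_ge_atTop (k * qn Q (i₀ + k)), eventually_ge_atTop 2] with X g1 g2 g3 g4
  have hX0 : (0 : ℝ) < X := by exact_mod_cast (by omega : 0 < X)
  obtain ⟨L, hL⟩ : ∃ L, L = Real.log X := ⟨_, rfl⟩
  rw [← hL] at g2 g3 ⊢
  have hLe : 8 ≤ L * e := by
    rw [div_le_iff₀ he0] at g2
    exact g2
  have hL8 : 8 ≤ L := by nlinarith
  constructor
  · have h3 := (Real.rpow_pos_of_pos hX0 _).trans_le g1
    have h4 : {i | i ∈ near Q k (fun _ => 1 / (k : ℝ)) (e / (2 * k)) X ∧ X < 4 * qn Q i}.Nonempty := by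
      apply Set.nonempty_of_ncard_ne_zero
      intro h
      rw [h] at h3
      simp at h3
    obtain ⟨i, ⟨hi1, hi2⟩, hi3⟩ := h4
    refine ⟨i, hi1, fun j hj => ?_⟩
    have h5 := (abs_lt.1 (hi2 ⟨j, hj⟩)).1
    have h6 : (1 - e / 2) / k ≤ ((qn Q (i + j + 1) : ℝ) - qn Q (i + j)) / (Real.log (qn Q i)) ^ 2 := by
      have h7 : (1 - e / 2) / k = 1 / k - e / (2 * k) := by field_simp
      rw [h7]
      have h8 : V Q k i ⟨j, hj⟩ = ((qn Q (i + j + 1) : ℝ) - qn Q (i + j)) / (Real.log (qn Q i)) ^ 2 := rfl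
      rw [← h8]
      linarith
    have hq : (X : ℝ) < 4 * qn Q i := by exact_mod_cast hi3
    have hq0 : (0 : ℝ) < qn Q i := by linarith
    have h7 : L - 2 ≤ Real.log (qn Q i) := by
      have h8 := Real.log_le_log hX0 hq.le
      rw [Real.log_mul (by norm_num) hq0.ne', ← hL] at h8
      have h9 : Real.log 4 ≤ 2 := by
        have : Real.log 4 = 2 * Real.log 2 := by
          rw [← Real.log_rpow (by norm_num)]
          norm_num
        rw [this]
        have := Real.log_two_lt_d9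
        linarith
      linarith
    have h8 : 0 < (Real.log (qn Q i)) ^ 2 := by
      have : 0 < Real.log (qn Q i) := by linarith
      positivity
    rw [le_div_iff₀ h8] at h6
    refine le_trans ?_ h6
    have h9 : (L - 2) ^ 2 ≤ (Real.log (qn Q i)) ^ 2 := pow_le_pow_left₀ (by linarith) h7 2
    have h10 : (1 - ε) * L ^ 2 ≤ (1 - e / 2) * (L - 2) ^ 2 := by
      have f1 : (1 - ε) * L ^ 2 ≤ (1 - e) * L ^ 2 := by
        apply mul_le_mul_of_nonneg_right _ (sq_nonneg _)
        linarith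
      have f2 : (1 - e / 2) * (4 * L) ≤ 1 * (4 * L) := by
        apply mul_le_mul_of_nonneg_right _ (by linarith)
        linarith
      nlinarith
    calc (1 - ε) / k * L ^ 2 = ((1 - ε) * L ^ 2) / k := by ring
      _ ≤ ((1 - e / 2) * (L - 2) ^ 2) / k := by gcongr
      _ = (1 - e / 2) / k * (L - 2) ^ 2 := by ring
      _ ≤ (1 - e / 2) / k * (Real.log (qn Q i)) ^ 2 := by
        apply mul_le_mul_of_nonneg_left h9
        apply div_nonneg _ hk0.le
        linarith
  · intro i hi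
    have hL2 : 0 < L ^ 2 := by positivity
    by_cases hii : i₀ ≤ i
    · by_contra hcon
      push Not at hcon
      have h3 := hi₀ i hii
      have h4 := V_sum Q k i
      have h5 : (1 + ε) * L ^ 2 < (qn Q (i + k) : ℝ) - qn Q i := by
        have h6 := Finset.sum_range_sub (fun j => (qn Q (i + j) : ℝ)) k
        rw [add_zero] at h6
        rw [← h6]
        calc (1 + ε) * L ^ 2 = ∑ j ∈ range k, (1 + ε) / k * L ^ 2 := by
              rw [sum_const, card_range, nsmul_eq_mul]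
              field_simp
          _ < ∑ j ∈ range k, ((qn Q (i + (j + 1)) : ℝ) - qn Q (i + j)) := by
              apply sum_lt_sum_of_nonempty
              · exact ⟨0, mem_range.2 (by omega)⟩
              · intro j hj
                exact hcon j (mem_range.1 hj)
      have h6 : (Real.log (qn Q i)) ^ 2 ≤ L ^ 2 := by
        apply pow_le_pow_left₀ (Real.log_natCast_nonneg _)
        rcases Nat.eq_zero_or_pos (qn Q i) with h10 | h10
        · rw [h10, Nat.cast_zero, Real.log_zero]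
          linarith
        · rw [hL]
          exact Real.log_le_log (by exact_mod_cast h10) (by exact_mod_cast hi)
      have h7 : (1 + ε) * (Real.log (qn Q i)) ^ 2 ≤ (1 + ε) * L ^ 2 := by gcongr
      linarith
    · refine ⟨0, by omega, ?_⟩
      have h3 : qn Q (i + 0 + 1) ≤ qn Q (i₀ + k) := (qn_mono Q hQ).monotone (by omega)
      have h4 : (qn Q (i + 0 + 1) : ℝ) ≤ qn Q (i₀ + k) := by exact_mod_cast h3
      have h5 : (0 : ℝ) ≤ qn Q (i + 0) := Nat.cast_nonneg _
      have h6 : (qn Q (i₀ + k) : ℝ) ≤ (1 + ε) / k * L ^ 2 := by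
        rw [div_mul_eq_mul_div, le_div_iff₀ hk0]
        nlinarith
      linarith

end Pool.Agent.U839.Ch
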